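import Pool.Agent.W247.Seven.Real

set_option autoImplicit false

namespace Pool.Agent.W247.Seven

theorem mixedR (a b p q c e r1 r2 r3 : ℝ) (ha : 0 ≤ a) (hb : 0 ≤ b) (hp : 0 ≤ p) (hq : 0 ≤ q)
    (hc : 0 ≤ c) (he : 0 ≤ e)
    (hab : a < 1 + b) (hba : b < 1 + a) (hpq : p < 1 + q) (hqp : q < 1 + p)
    (hce : c < 1 + e) (hec : e < 1 + c)
    (hr1 : 0 < r1) (hr2 : 0 < r2) (hr3 : 0 < r3)
    (S1 : b * r1 < r3 ∧ r2 < a * r1) (S2 : q * r2 < r3 ∧ r1 < p * r2)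
    (S3 : c * r3 < r1 ∧ r2 < e * r3)
    (E1b : 2 * q < (1 + a) * (1 + q - p) ∨ 2 < (1 + b) * (1 + q - p))
    (E2a : 2 * b < (1 + p) * (1 + b - a) ∨ 2 < (1 + q) * (1 + b - a))
    (E2b : 2 * c < (1 + q) * (1 + c - e) ∨ 2 < (1 + p) * (1 + c - e))
    (E3a : 2 * p < (1 + e) * (1 + p - q) ∨ 2 < (1 + c) * (1 + p - q))
    (E3b : 2 * a < (1 + c) * (1 + a - b) ∨ 2 < (1 + e) * (1 + a - b)) : False := by
  obtain ⟨s1, s1'⟩ := S1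
  obtain ⟨s2, s2'⟩ := S2
  obtain ⟨s3, s3'⟩ := S3
  have hp0 : 0 < p := by
    rcases hp.lt_or_eq with h | h
    · exact h
    · rw [← h] at s2'; simp at s2'; linarith
  have A : 1 < a * p := by
    have h1 : p * r2 < p * (a * r1) := mul_lt_mul_of_pos_left s1' hp0
    have h2 : 1 * r1 < (a * p) * r1 := by
      have : (a * p) * r1 = p * (a * r1) := by ring
      rw [this]; linarith
    exact lt_of_mul_lt_mul_right h2 hr1.le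
  have B : b * c < 1 := by
    have h1 : c * (b * r1) ≤ c * r3 := mul_le_mul_of_nonneg_left s1.le hc
    have h2 : (b * c) * r1 < 1 * r1 := by
      have : (b * c) * r1 = c * (b * r1) := by ring
      rw [this]; linarith
    exact lt_of_mul_lt_mul_right h2 hr1.le
  have D : q * c < p := by
    have h1 : c * (q * r2) ≤ c * r3 := mul_le_mul_of_nonneg_left s2.le hc
    have h2 : (q * c) * r2 < p * r2 := by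
      have : (q * c) * r2 = c * (q * r2) := by ring
      rw [this]; linarith
    exact lt_of_mul_lt_mul_right h2 hr2.le
  have E' : c < p * e := by
    have h1 : p * r2 < p * (e * r3) := mul_lt_mul_of_pos_left s3' hp0
    have h2 : c * r3 < (p * e) * r3 := by
      have : (p * e) * r3 = p * (e * r3) := by ring
      rw [this]; linarith
    exact lt_of_mul_lt_mul_right h2 hr3.le
  exact mixed a b p q c e ha hb hp hq hc he hab hba hpq hqp hce hec A B D E'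
    E1b.symm E2a E2b.symm E3a E3b.symm

theorem cyclicR (m1 l1 m2 l2 m3 l3 r1 r2 r3 : ℝ)
    (hm1 : 0 ≤ m1) (hl1 : 0 ≤ l1) (hm2 : 0 ≤ m2) (hl2 : 0 ≤ l2) (hm3 : 0 ≤ m3) (hl3 : 0 ≤ l3)
    (hd1 : m1 < 1 + l1) (hd2 : m2 < 1 + l2) (hd3 : m3 < 1 + l3)
    (hr1 : 0 < r1) (hr2 : 0 < r2) (hr3 : 0 < r3)
    (S1 : l1 * r1 < r3 ∧ r2 < m1 * r1) (S2 : l2 * r2 < r1 ∧ r3 < m2 * r2)
    (S3 : l3 * r3 < r2 ∧ r1 < m3 * r3)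
    (G1 : 2 * l1 < (1 + l2) * (1 + l1 - m1) ∨ 2 < (1 + m2) * (1 + l1 - m1))
    (G2 : 2 * l2 < (1 + l3) * (1 + l2 - m2) ∨ 2 < (1 + m3) * (1 + l2 - m2))
    (G3 : 2 * l3 < (1 + l1) * (1 + l3 - m3) ∨ 2 < (1 + m1) * (1 + l3 - m3)) : False := by
  obtain ⟨s1, s1'⟩ := S1
  obtain ⟨s2, s2'⟩ := S2
  obtain ⟨s3, s3'⟩ := S3
  refine cyclic m1 l1 m2 l2 m3 l3 (r2 / r1) (r3 / r2) (r1 / r3) hm1 hl1 hm2 hl2 hm3 hl3
    hd1 hd2 hd3 (by positivity) (by positivity) (by positivity) (by field_simp)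
    ?_ ?_ ?_ ?_ ?_ ?_ G1 G2 G3
  · rw [div_lt_iff₀ hr1]; exact s1'
  · rw [div_lt_iff₀ hr2]; exact s2'
  · rw [div_lt_iff₀ hr3]; exact s3'
  · rw [div_mul_eq_mul_div, div_lt_one hr1]; linarith
  · rw [div_mul_eq_mul_div, div_lt_one hr2]; linarith
  · rw [div_mul_eq_mul_div, div_lt_one hr3]; linarith

theorem final (w12 w13 w21 w23 w31 w32 r1 r2 r3 : ℝ)
    (h12 : 0 ≤ w12) (h13 : 0 ≤ w13) (h21 : 0 ≤ w21) (h23 : 0 ≤ w23) (h31 : 0 ≤ w31)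
    (h32 : 0 ≤ w32)
    (d12 : w12 < 1 + w13) (d13 : w13 < 1 + w12) (d21 : w21 < 1 + w23) (d23 : w23 < 1 + w21)
    (d31 : w31 < 1 + w32) (d32 : w32 < 1 + w31)
    (hr1 : 0 < r1) (hr2 : 0 < r2) (hr3 : 0 < r3)
    (E12 : 2 * w23 < (1 + w12) * (1 + w23 - w21) ∨ 2 < (1 + w13) * (1 + w23 - w21))
    (E13 : 2 * w32 < (1 + w13) * (1 + w32 - w31) ∨ 2 < (1 + w12) * (1 + w32 - w31))
    (E21 : 2 * w13 < (1 + w21) * (1 + w13 - w12) ∨ 2 < (1 + w23) * (1 + w13 - w12))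
    (E23 : 2 * w31 < (1 + w23) * (1 + w31 - w32) ∨ 2 < (1 + w21) * (1 + w31 - w32))
    (E31 : 2 * w12 < (1 + w31) * (1 + w12 - w13) ∨ 2 < (1 + w32) * (1 + w12 - w13))
    (E32 : 2 * w21 < (1 + w32) * (1 + w21 - w23) ∨ 2 < (1 + w31) * (1 + w21 - w23))
    (S1 : (w13 * r1 < r3 ∧ r2 < w12 * r1) ∨ (w12 * r1 < r2 ∧ r3 < w13 * r1))
    (S2 : (w21 * r2 < r1 ∧ r3 < w23 * r2) ∨ (w23 * r2 < r3 ∧ r1 < w21 * r2))
    (S3 : (w32 * r3 < r2 ∧ r1 < w31 * r3) ∨ (w31 * r3 < r1 ∧ r2 < w32 * r3)) : False := by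
  rcases S1 with s1 | s1 <;> rcases S2 with s2 | s2 <;> rcases S3 with s3 | s3
  · -- σ = 3,1,2
    exact cyclicR w12 w13 w23 w21 w31 w32 r1 r2 r3 h12 h13 h23 h21 h31 h32 d12 d23 d31
      hr1 hr2 hr3 s1 s2 s3 E21 E32 E13
  · -- σ(1)=3, σ(2)=1, σ(3)=1 : 2-cycle {1,3}, third 2 → 1.  π = (3,2,1)
    exact mixedR w32 w31 w23 w21 w13 w12 r3 r2 r1 h32 h31 h23 h21 h13 h12 d32 d31 d23 d21 d13 d12
      hr3 hr2 hr1 ⟨s3.1, s3.2⟩ ⟨s2.1, s2.2⟩ ⟨s1.1, s1.2⟩ E32 E23 E21 E12 E13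
  · -- σ(1)=3, σ(2)=3, σ(3)=2 : 2-cycle {2,3}, third 1 → 3. π = (2,1,3)
    exact mixedR w21 w23 w12 w13 w32 w31 r2 r1 r3 h21 h23 h12 h13 h32 h31 d21 d23 d12 d13 d32 d31
      hr2 hr1 hr3 ⟨s2.1, s2.2⟩ ⟨s1.1, s1.2⟩ ⟨s3.1, s3.2⟩ E21 E12 E13 E31 E32
  · -- σ(1)=3, σ(2)=3, σ(3)=1 : base
    exact mixedR w12 w13 w21 w23 w31 w32 r1 r2 r3 h12 h13 h21 h23 h31 h32 d12 d13 d21 d23 d31 d32
      hr1 hr2 hr3 ⟨s1.1, s1.2⟩ ⟨s2.1, s2.2⟩ ⟨s3.1, s3.2⟩ E12 E21 E23 E32 E31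
  · -- σ(1)=2, σ(2)=1, σ(3)=2 : 2-cycle {1,2}, third 3 → 2. π = (1,3,2)
    exact mixedR w13 w12 w31 w32 w21 w23 r1 r3 r2 h13 h12 h31 h32 h21 h23 d13 d12 d31 d32 d21 d23
      hr1 hr3 hr2 ⟨s1.1, s1.2⟩ ⟨s3.1, s3.2⟩ ⟨s2.1, s2.2⟩ E13 E31 E32 E23 E21
  · -- σ(1)=2, σ(2)=1, σ(3)=1 : 2-cycle {1,2}, third 3 → 1. π = (2,3,1)
    exact mixedR w23 w21 w32 w31 w12 w13 r2 r3 r1 h23 h21 h32 h31 h12 h13 d23 d21 d32 d31 d12 d13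
      hr2 hr3 hr1 ⟨s2.1, s2.2⟩ ⟨s3.1, s3.2⟩ ⟨s1.1, s1.2⟩ E23 E32 E31 E13 E12
  · -- σ(1)=2, σ(2)=3, σ(3)=2 : 2-cycle {2,3}, third 1 → 2. π = (3,1,2)
    exact mixedR w31 w32 w13 w12 w23 w21 r3 r1 r2 h31 h32 h13 h12 h23 h21 d31 d32 d13 d12 d23 d21
      hr3 hr1 hr2 ⟨s3.1, s3.2⟩ ⟨s1.1, s1.2⟩ ⟨s2.1, s2.2⟩ E31 E13 E12 E21 E23
  · -- σ(1)=2, σ(2)=3, σ(3)=1 : cyclic reversed
    exact cyclicR w13 w12 w32 w31 w21 w23 r1 r3 r2 h13 h12 h32 h31 h21 h23 d13 d32 d21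
      hr1 hr3 hr2 s1 s3 s2 E31 E23 E12

end Pool.Agent.W247.Seven
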