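import Pool.Agent.W247.Seven.Norm

set_option autoImplicit false

namespace Pool.Agent.W247.Seven

variable {E : Type} [NormedAddCommGroup E] [NormedSpace ℝ E]

/-- Hexagon with a centre: contradiction. -/
theorem hexc (a1 a2 a3 c1 c2 c3 q : E) (M : ℝ) (hM : 0 < M)
    (g1 x1 y1 g2 x2 y2 g3 x3 y3 b1 b2 b3 : ℝ)
    (hg1 : 0 ≤ g1) (hg2 : 0 ≤ g2) (hg3 : 0 ≤ g3)
    (hx1 : x1 ≤ 1) (hy1 : y1 ≤ 1) (hx2 : x2 ≤ 1) (hy2 : y2 ≤ 1) (hx3 : x3 ≤ 1) (hy3 : y3 ≤ 1)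
    (hs1 : x1 + y1 = 1 + g1) (hs2 : x2 + y2 = 1 + g2) (hs3 : x3 + y3 = 1 + g3)
    (hc1 : c1 = (-g1) • a1 + x1 • a2 + y1 • a3)
    (hc2 : c2 = (-g2) • a2 + x2 • a3 + y2 • a1)
    (hc3 : c3 = (-g3) • a3 + x3 • a1 + y3 • a2)
    (hb1 : 0 ≤ b1) (hb2 : 0 ≤ b2) (hb3 : 0 ≤ b3) (hbs : b1 + b2 + b3 = 1)
    (hq : q = b1 • a1 + b2 • a2 + b3 • a3)
    (h12 : ‖a1 - a2‖ ≤ M) (h13 : ‖a1 - a3‖ ≤ M) (h23 : ‖a2 - a3‖ ≤ M)
    (u1 : ‖a1 - c1‖ ≤ M) (u2 : ‖a2 - c2‖ ≤ M) (u3 : ‖a3 - c3‖ ≤ M)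
    (l12 : M < 2 * ‖c1 - a2‖) (l13 : M < 2 * ‖c1 - a3‖) (l21 : M < 2 * ‖c2 - a1‖)
    (l23 : M < 2 * ‖c2 - a3‖) (l31 : M < 2 * ‖c3 - a1‖) (l32 : M < 2 * ‖c3 - a2‖)
    (lq1 : M < 2 * ‖a1 - q‖) (lq2 : M < 2 * ‖a2 - q‖) (lq3 : M < 2 * ‖a3 - q‖)
    (lc1 : M < 2 * ‖q - c1‖) (lc2 : M < 2 * ‖q - c2‖) (lc3 : M < 2 * ‖q - c3‖) : False := by
  have h21 : ‖a2 - a1‖ ≤ M := by rw [norm_sub_rev]; exact h12
  have h31 : ‖a3 - a1‖ ≤ M := by rw [norm_sub_rev]; exact h13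
  have h32 : ‖a3 - a2‖ ≤ M := by rw [norm_sub_rev]; exact h23
  obtain ⟨X1, Y1⟩ := outer a1 a2 a3 c1 M g1 x1 y1 hM hg1 hx1 hy1 hs1 hc1 h12 h13 h23 l12 l13
  obtain ⟨X2, Y2⟩ := outer a2 a3 a1 c2 M g2 x2 y2 hM hg2 hx2 hy2 hs2 hc2 h23 h21 h31 l23 l21
  obtain ⟨X3, Y3⟩ := outer a3 a1 a2 c3 M g3 x3 y3 hM hg3 hx3 hy3 hs3 hc3 h31 h32 h12 l31 l32
  have hB1 : b1 < 1 / 2 := inner a1 a2 a3 q M b1 b2 b3 hM hb2 hb3 hbs hq h12 h13 lq1
  have hB2 : b2 < 1 / 2 := inner a2 a3 a1 q M b2 b3 b1 hM hb3 hb1 (by linarith)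
    (by rw [hq]; module) h23 h21 lq2
  have hB3 : b3 < 1 / 2 := inner a3 a1 a2 q M b3 b1 b2 hM hb1 hb2 (by linarith)
    (by rw [hq]; module) h31 h32 lq3
  have G1 : 0 < g1 := by linarith
  have G2 : 0 < g2 := by linarith
  have G3 : 0 < g3 := by linarith
  -- the parameters
  obtain ⟨w12, hw12⟩ : ∃ w, w = (1 - x1) / g1 := ⟨_, rfl⟩
  obtain ⟨w13, hw13⟩ : ∃ w, w = (1 - y1) / g1 := ⟨_, rfl⟩
  obtain ⟨w23, hw23⟩ : ∃ w, w = (1 - x2) / g2 := ⟨_, rfl⟩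
  obtain ⟨w21, hw21⟩ : ∃ w, w = (1 - y2) / g2 := ⟨_, rfl⟩
  obtain ⟨w31, hw31⟩ : ∃ w, w = (1 - x3) / g3 := ⟨_, rfl⟩
  obtain ⟨w32, hw32⟩ : ∃ w, w = (1 - y3) / g3 := ⟨_, rfl⟩
  have key : ∀ g x w : ℝ, 0 < g → x ≤ 1 → w = (1 - x) / g → 0 ≤ w ∧ g * w = 1 - x := by
    intro g x w hg hx hw
    constructor
    · rw [hw]; exact div_nonneg (by linarith) hg.le
    · rw [hw]; field_simp
  obtain ⟨n12, e12⟩ := key g1 x1 w12 G1 hx1 hw12
  obtain ⟨n13, e13⟩ := key g1 y1 w13 G1 hy1 hw13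
  obtain ⟨n23, e23⟩ := key g2 x2 w23 G2 hx2 hw23
  obtain ⟨n21, e21⟩ := key g2 y2 w21 G2 hy2 hw21
  obtain ⟨n31, e31⟩ := key g3 x3 w31 G3 hx3 hw31
  obtain ⟨n32, e32⟩ := key g3 y3 w32 G3 hy3 hw32
  have s1 : g1 * (1 + w12 + w13) = 1 := by linarith
  have s2 : g2 * (1 + w21 + w23) = 1 := by linarith
  have s3 : g3 * (1 + w31 + w32) = 1 := by linarith
  have ex1 : x1 = g1 * (1 + w13) := by linarith
  have ey1 : y1 = g1 * (1 + w12) := by linarith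
  have ex2 : x2 = g2 * (1 + w21) := by linarith
  have ey2 : y2 = g2 * (1 + w23) := by linarith
  have ex3 : x3 = g3 * (1 + w32) := by linarith
  have ey3 : y3 = g3 * (1 + w31) := by linarith
  -- differences: w < 1 + w'
  have diff : ∀ g x w w' : ℝ, 0 < g → 1 / 2 < x → g * w = 1 - x → g * (1 + w + w') = 1 →
      w < 1 + w' := by
    intro g x w w' hg hx hw hsum
    have : g * w < g * (1 + w') := by linarith
    exact lt_of_mul_lt_mul_left this hg.le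
  have d12 := diff g1 x1 w12 w13 G1 X1 e12 s1
  have d13 := diff g1 y1 w13 w12 G1 Y1 e13 (by linarith)
  have d23 := diff g2 x2 w23 w21 G2 X2 e23 (by linarith)
  have d21 := diff g2 y2 w21 w23 G2 Y2 e21 s2
  have d31 := diff g3 x3 w31 w32 G3 X3 e31 s3
  have d32 := diff g3 y3 w32 w31 G3 Y3 e32 (by linarith)
  subst ex1 ey1 ex2 ey2 ex3 ey3
  -- edges
  have E12 := edge a1 a3 a2 c1 c2 M g1 w13 w12 g2 w21 w23 hM G1 G2 n13 n12 n21 n23
    (by rw [hc1]; module) (by rw [hc2]; module) (by linarith) s2 h13 h12 u1 l23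
  have E13 := edge a1 a2 a3 c1 c3 M g1 w12 w13 g3 w31 w32 hM G1 G3 n12 n13 n31 n32
    (by rw [hc1]) (by rw [hc3]) s1 s3 h12 h13 u1 l32
  have E21 := edge a2 a3 a1 c2 c1 M g2 w23 w21 g1 w12 w13 hM G2 G1 n23 n21 n12 n13
    (by rw [hc2]) (by rw [hc1]) (by linarith) s1 h23 h21 u2 l13
  have E23 := edge a2 a1 a3 c2 c3 M g2 w21 w23 g3 w32 w31 hM G2 G3 n21 n23 n32 n31
    (by rw [hc2]; module) (by rw [hc3]; module) s2 (by linarith) h21 h23 u2 l31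
  have E31 := edge a3 a2 a1 c3 c1 M g3 w32 w31 g1 w13 w12 hM G3 G1 n32 n31 n13 n12
    (by rw [hc3]; module) (by rw [hc1]; module) (by linarith) (by linarith) h32 h31 u3 l12
  have E32 := edge a3 a1 a2 c3 c2 M g3 w31 w32 g2 w23 w21 hM G3 G2 n31 n32 n23 n21
    (by rw [hc3]) (by rw [hc2]) s3 (by linarith) h31 h32 u3 l21
  -- centre
  have S1 := centre a1 a2 a3 c1 q M g1 w12 w13 b1 b2 b3 hM G1 n12 n13 hb2 hb3 hbs
    (by linarith) (by linarith) (by rw [hc1]) hq s1 h12 h13 u1 lq1 lc1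
  have S2 := centre a2 a3 a1 c2 q M g2 w23 w21 b2 b3 b1 hM G2 n23 n21 hb3 hb1 (by linarith)
    (by linarith) (by linarith) (by rw [hc2]) (by rw [hq]; module) (by linarith) h23 h21 u2 lq2 lc2
  have S3 := centre a3 a1 a2 c3 q M g3 w31 w32 b3 b1 b2 hM G3 n31 n32 hb1 hb2 (by linarith)
    (by linarith) (by linarith) (by rw [hc3]) (by rw [hq]; module) s3 h31 h32 u3 lq3 lc3
  exact final w12 w13 w21 w23 w31 w32 (1 - 2 * b1) (1 - 2 * b2) (1 - 2 * b3)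
    n12 n13 n21 n23 n31 n32 d12 d13 d21 d23 d31 d32 (by linarith) (by linarith) (by linarith)
    E12 E13 E21 E23 E31 E32 S1 S2 S3

/-- General hexagonal norm bound. -/
theorem hexgen (a b c : E) (M t d1 d2 d3 : ℝ) (hM : 0 < M) (hs : d1 + d2 + d3 = 0)
    (h1 : |d1| ≤ t) (h2 : |d2| ≤ t) (h3 : |d3| ≤ t)
    (hab : ‖a - b‖ ≤ M) (hac : ‖a - c‖ ≤ M) (hbc : ‖b - c‖ ≤ M) :
    ‖d1 • a + d2 • b + d3 • c‖ ≤ t * M := by
  have hba : ‖b - a‖ ≤ M := by rw [norm_sub_rev]; exact hab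
  have hca : ‖c - a‖ ≤ M := by rw [norm_sub_rev]; exact hac
  have hcb : ‖c - b‖ ≤ M := by rw [norm_sub_rev]; exact hbc
  obtain ⟨k1, k1'⟩ := abs_le.1 h1
  obtain ⟨k2, k2'⟩ := abs_le.1 h2
  obtain ⟨k3, k3'⟩ := abs_le.1 h3
  -- positive apex
  have pos : ∀ (x y z : E) (e1 e2 e3 : ℝ), e1 + e2 + e3 = 0 → e2 ≤ 0 → e3 ≤ 0 → e1 ≤ t →
      ‖x - y‖ ≤ M → ‖x - z‖ ≤ M → ‖e1 • x + e2 • y + e3 • z‖ ≤ t * M := by
    intro x y z e1 e2 e3 hs h2 h3 ht hxy hxz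
    have h := hexn x y z M (-e2) (-e3) (by linarith) (by linarith) hxy hxz
    have e : ((-e2) + (-e3)) • x - (-e2) • y - (-e3) • z = e1 • x + e2 • y + e3 • z := by
      have : (-e2) + (-e3) = e1 := by linarith
      rw [this]; module
    rw [e] at h
    have : -e2 + -e3 = e1 := by linarith
    rw [this] at h
    exact h.trans (mul_le_mul_of_nonneg_right ht hM.le)
  have neg : ∀ (x y z : E) (e1 e2 e3 : ℝ), e1 + e2 + e3 = 0 → 0 ≤ e2 → 0 ≤ e3 → -t ≤ e1 →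
      ‖x - y‖ ≤ M → ‖x - z‖ ≤ M → ‖e1 • x + e2 • y + e3 • z‖ ≤ t * M := by
    intro x y z e1 e2 e3 hs h2 h3 ht hxy hxz
    have h := hexn x y z M e2 e3 h2 h3 hxy hxz
    have e : (e2 + e3) • x - e2 • y - e3 • z = -(e1 • x + e2 • y + e3 • z) := by
      have : e2 + e3 = -e1 := by linarith
      rw [this]; module
    rw [e, norm_neg] at h
    have : e2 + e3 = -e1 := by linarith
    rw [this] at h
    exact h.trans (mul_le_mul_of_nonneg_right (by linarith) hM.le)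
  have p2 : d1 • a + d2 • b + d3 • c = d2 • b + d1 • a + d3 • c := by module
  have p3 : d1 • a + d2 • b + d3 • c = d3 • c + d1 • a + d2 • b := by module
  rcases le_total 0 d1 with s1 | s1 <;> rcases le_total 0 d2 with s2 | s2 <;>
    rcases le_total 0 d3 with s3 | s3
  · exact pos a b c d1 d2 d3 hs (by linarith) (by linarith) k1' hab hac
  · rw [p3]; exact neg c a b d3 d1 d2 (by linarith) s1 s2 k3 hca hcb
  · rw [p2]; exact neg b a c d2 d1 d3 (by linarith) s1 s3 k2 hba hbc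
  · exact pos a b c d1 d2 d3 hs s2 s3 k1' hab hac
  · exact neg a b c d1 d2 d3 hs s2 s3 k1 hab hac
  · rw [p2]; exact pos b a c d2 d1 d3 (by linarith) s1 s3 k2' hba hbc
  · rw [p3]; exact pos c a b d3 d1 d2 (by linarith) s1 s2 k3' hca hcb
  · exact neg a b c d1 d2 d3 hs (by linarith) (by linarith) k1 hab hac

theorem twoInner (a b c q q' : E) (M : ℝ) (hM : 0 < M) (b1 b2 b3 b1' b2' b3' : ℝ)
    (h1 : 0 ≤ b1) (h2 : 0 ≤ b2) (h3 : 0 ≤ b3) (h1' : 0 ≤ b1') (h2' : 0 ≤ b2') (h3' : 0 ≤ b3')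
    (hs : b1 + b2 + b3 = 1) (hs' : b1' + b2' + b3' = 1)
    (hq : q = b1 • a + b2 • b + b3 • c) (hq' : q' = b1' • a + b2' • b + b3' • c)
    (hab : ‖a - b‖ ≤ M) (hac : ‖a - c‖ ≤ M) (hbc : ‖b - c‖ ≤ M)
    (la : M < 2 * ‖a - q‖) (lb : M < 2 * ‖b - q‖) (lc : M < 2 * ‖c - q‖)
    (la' : M < 2 * ‖a - q'‖) (lb' : M < 2 * ‖b - q'‖) (lc' : M < 2 * ‖c - q'‖)
    (hqq : M < 2 * ‖q - q'‖) : False := by
  have hba : ‖b - a‖ ≤ M := by rw [norm_sub_rev]; exact hab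
  have hca : ‖c - a‖ ≤ M := by rw [norm_sub_rev]; exact hac
  have hcb : ‖c - b‖ ≤ M := by rw [norm_sub_rev]; exact hbc
  have B1 := inner a b c q M b1 b2 b3 hM h2 h3 hs hq hab hac la
  have B2 := inner b a c q M b2 b1 b3 hM h1 h3 (by linarith) (by rw [hq]; module) hba hbc lb
  have B3 := inner c a b q M b3 b1 b2 hM h1 h2 (by linarith) (by rw [hq]; module) hca hcb lc
  have B1' := inner a b c q' M b1' b2' b3' hM h2' h3' hs' hq' hab hac la'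
  have B2' := inner b a c q' M b2' b1' b3' hM h1' h3' (by linarith) (by rw [hq']; module)
    hba hbc lb'
  have B3' := inner c a b q' M b3' b1' b2' hM h1' h2' (by linarith) (by rw [hq']; module)
    hca hcb lc'
  have h := hexgen a b c M (1 / 2) (b1 - b1') (b2 - b2') (b3 - b3') hM (by linarith)
    (abs_le.2 ⟨by linarith, by linarith⟩) (abs_le.2 ⟨by linarith, by linarith⟩)
    (abs_le.2 ⟨by linarith, by linarith⟩) hab hac hbc
  have e : q - q' = (b1 - b1') • a + (b2 - b2') • b + (b3 - b3') • c := by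
    rw [hq, hq']; module
  rw [← e] at h
  linarith

theorem twoOuter_aux (a b c d d' : E) (M : ℝ) (hM : 0 < M) (g x y g' x' y' : ℝ)
    (hg : 0 ≤ g) (hg'1 : g' ≤ 1) (hx : 1 / 2 < x) (hy : 1 / 2 < y)
    (hx1 : x ≤ 1) (hy1 : y ≤ 1) (hx2 : 1 / 2 < x') (hy2 : 1 / 2 < y')
    (hx' : x' ≤ 1) (hy' : y' ≤ 1)
    (hs : x + y = 1 + g) (hs' : x' + y' = 1 + g')
    (hd : d = (-g) • a + x • b + y • c) (hd' : d' = (-g') • a + x' • b + y' • c)
    (hgg : g ≤ g')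
    (hab : ‖a - b‖ ≤ M) (hac : ‖a - c‖ ≤ M) (hbc : ‖b - c‖ ≤ M)
    (had' : ‖a - d'‖ ≤ M) (hbd' : ‖b - d'‖ ≤ M) (hcd' : ‖c - d'‖ ≤ M)
    (l1 : M < 2 * ‖d - b‖) (l2 : M < 2 * ‖d - c‖) (l3 : M < 2 * ‖d - d'‖) : False := by
  have hcb : ‖c - b‖ ≤ M := by rw [norm_sub_rev]; exact hbc
  have hdb' : ‖d' - b‖ ≤ M := by rw [norm_sub_rev]; exact hbd'
  have hdc' : ‖d' - c‖ ≤ M := by rw [norm_sub_rev]; exact hcd'
  have hgap : g + 1 / 2 < g' := by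
    by_contra hcon
    push Not at hcon
    have h := hexgen a b c M (1 / 2) (g' - g) (x - x') (y - y') hM (by linarith)
      (abs_le.2 ⟨by linarith, by linarith⟩) (abs_le.2 ⟨by linarith, by linarith⟩)
      (abs_le.2 ⟨by linarith, by linarith⟩) hab hac hbc
    have e : d - d' = (g' - g) • a + (x - x') • b + (y - y') • c := by
      rw [hd, hd']; module
    rw [← e] at h
    linarith
  have hg'0 : 0 < g' := by linarith
  obtain ⟨lam, hlam⟩ : ∃ l, l = g / g' := ⟨_, rfl⟩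
  have hl0 : 0 ≤ lam := by rw [hlam]; positivity
  have hl1 : lam < 1 / 2 := by rw [hlam, div_lt_iff₀ hg'0]; linarith
  have hlg : lam * g' = g := by rw [hlam]; field_simp
  obtain ⟨m2, hm2⟩ : ∃ m, m = x - lam * x' := ⟨_, rfl⟩
  obtain ⟨m3, hm3⟩ : ∃ m, m = y - lam * y' := ⟨_, rfl⟩
  have hm2p : 0 < m2 := by
    have : lam * x' ≤ lam * 1 := mul_le_mul_of_nonneg_left hx' hl0
    linarith
  have hm3p : 0 < m3 := by
    have : lam * y' ≤ lam * 1 := mul_le_mul_of_nonneg_left hy' hl0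
    linarith
  have hsum : lam + m2 + m3 = 1 := by
    have : lam * x' + lam * y' = lam * (1 + g') := by rw [← mul_add, hs']
    nlinarith
  have hdeq : d = lam • d' + m2 • b + m3 • c := by
    rw [hd, hd', hm2, hm3, ← hlg]; module
  have hm2h : m2 < 1 / 2 := by
    have e : d - b = lam • (d' - b) + m3 • (c - b) := by
      rw [hdeq]
      have : m2 = 1 - lam - m3 := by linarith
      rw [this]; module
    have h : ‖d - b‖ ≤ (lam + m3) * M := by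
      rw [e]
      calc ‖lam • (d' - b) + m3 • (c - b)‖ ≤ ‖lam • (d' - b)‖ + ‖m3 • (c - b)‖ := norm_add_le _ _
        _ = lam * ‖d' - b‖ + m3 * ‖c - b‖ := by
            rw [norm_smul, norm_smul, Real.norm_of_nonneg hl0, Real.norm_of_nonneg hm3p.le]
        _ ≤ lam * M + m3 * M := add_le_add (mul_le_mul_of_nonneg_left hdb' hl0)
            (mul_le_mul_of_nonneg_left hcb hm3p.le)
        _ = (lam + m3) * M := by ring
    have h2 : lam + m3 = 1 - m2 := by linarith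
    rw [h2] at h
    nlinarith
  have hm3h : m3 < 1 / 2 := by
    have e : d - c = lam • (d' - c) + m2 • (b - c) := by
      rw [hdeq]
      have : m3 = 1 - lam - m2 := by linarith
      rw [this]; module
    have h : ‖d - c‖ ≤ (lam + m2) * M := by
      rw [e]
      calc ‖lam • (d' - c) + m2 • (b - c)‖ ≤ ‖lam • (d' - c)‖ + ‖m2 • (b - c)‖ := norm_add_le _ _
        _ = lam * ‖d' - c‖ + m2 * ‖b - c‖ := by
            rw [norm_smul, norm_smul, Real.norm_of_nonneg hl0, Real.norm_of_nonneg hm2p.le]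
        _ ≤ lam * M + m2 * M := add_le_add (mul_le_mul_of_nonneg_left hdc' hl0)
            (mul_le_mul_of_nonneg_left hbc hm2p.le)
        _ = (lam + m2) * M := by ring
    have h2 : lam + m2 = 1 - m3 := by linarith
    rw [h2] at h
    nlinarith
  -- d - d' = A (a-d') + B (b-d') + C (c-d')
  obtain ⟨A, hA⟩ : ∃ A, A = (1 - 2 * lam) * g' / 2 := ⟨_, rfl⟩
  obtain ⟨B, hB⟩ : ∃ B, B = ((1 - 2 * lam) * (1 - x') + (1 - 2 * m3)) / 2 := ⟨_, rfl⟩
  obtain ⟨C, hC⟩ : ∃ C, C = ((1 - 2 * lam) * (1 - y') + (1 - 2 * m2)) / 2 := ⟨_, rfl⟩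
  have hA0 : 0 ≤ A := by
    rw [hA]; apply div_nonneg _ (by norm_num); apply mul_nonneg <;> linarith
  have hB0 : 0 ≤ B := by
    rw [hB]; apply div_nonneg _ (by norm_num)
    have := mul_nonneg (by linarith : (0:ℝ) ≤ 1 - 2 * lam) (by linarith : (0:ℝ) ≤ 1 - x')
    linarith
  have hC0 : 0 ≤ C := by
    rw [hC]; apply div_nonneg _ (by norm_num)
    have := mul_nonneg (by linarith : (0:ℝ) ≤ 1 - 2 * lam) (by linarith : (0:ℝ) ≤ 1 - y')
    linarith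
  have hABC : A + B + C = 1 / 2 := by
    rw [hA, hB, hC]
    have : (1 - 2 * lam) * g' + (1 - 2 * lam) * (1 - x') + (1 - 2 * lam) * (1 - y')
        = (1 - 2 * lam) := by
      have : g' + (1 - x') + (1 - y') = 1 := by linarith
      rw [← mul_add, ← mul_add, this, mul_one]
    linarith
  have hvec : d - d' = A • (a - d') + B • (b - d') + C • (c - d') := by
    have e1 : A • (a - d') + B • (b - d') + C • (c - d')
        = A • a + B • b + C • c - (A + B + C) • d' := by module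
    rw [e1, hABC]
    have hx'' : x' = g' + 1 - y' := by linarith
    have hlam3 : lam = 1 - m2 - m3 := by linarith
    -- express everything through d' = ...
    have e2 : d - d' = lam • d' + m2 • b + m3 • c - d' := by rw [hdeq]
    rw [e2]
    have e3 : A • a = ((1 - 2 * lam) / 2) • (g' • a) := by
      rw [smul_smul, hA]; congr 1; ring
    have e4 : g' • a = x' • b + y' • c - d' := by
      rw [hd']; module
    rw [e3, e4, hB, hC]
    have : m3 = 1 - lam - m2 := by linarith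
    rw [this]
    module
  have hfin : ‖d - d'‖ ≤ (A + B + C) * M := by
    rw [hvec]
    calc ‖A • (a - d') + B • (b - d') + C • (c - d')‖
        ≤ ‖A • (a - d') + B • (b - d')‖ + ‖C • (c - d')‖ := norm_add_le _ _
      _ ≤ ‖A • (a - d')‖ + ‖B • (b - d')‖ + ‖C • (c - d')‖ := by
          have := norm_add_le (A • (a - d')) (B • (b - d'))
          linarith
      _ = A * ‖a - d'‖ + B * ‖b - d'‖ + C * ‖c - d'‖ := by
          rw [norm_smul, norm_smul, norm_smul, Real.norm_of_nonneg hA0, Real.norm_of_nonneg hB0,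
            Real.norm_of_nonneg hC0]
      _ ≤ A * M + B * M + C * M := by
          have := mul_le_mul_of_nonneg_left had' hA0
          have := mul_le_mul_of_nonneg_left hbd' hB0
          have := mul_le_mul_of_nonneg_left hcd' hC0
          linarith
      _ = (A + B + C) * M := by ring
  rw [hABC] at hfin
  linarith

theorem twoOuter (a b c d d' : E) (M : ℝ) (hM : 0 < M) (g x y g' x' y' : ℝ)
    (hg : 0 ≤ g) (hg1 : g ≤ 1) (hg' : 0 ≤ g') (hg'1 : g' ≤ 1)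
    (hx1 : x ≤ 1) (hy1 : y ≤ 1) (hx' : x' ≤ 1) (hy' : y' ≤ 1)
    (hs : x + y = 1 + g) (hs' : x' + y' = 1 + g')
    (hd : d = (-g) • a + x • b + y • c) (hd' : d' = (-g') • a + x' • b + y' • c)
    (hab : ‖a - b‖ ≤ M) (hac : ‖a - c‖ ≤ M) (hbc : ‖b - c‖ ≤ M)
    (had : ‖a - d‖ ≤ M) (hbd : ‖b - d‖ ≤ M) (hcd : ‖c - d‖ ≤ M)
    (had' : ‖a - d'‖ ≤ M) (hbd' : ‖b - d'‖ ≤ M) (hcd' : ‖c - d'‖ ≤ M)
    (l1 : M < 2 * ‖d - b‖) (l2 : M < 2 * ‖d - c‖)
    (l1' : M < 2 * ‖d' - b‖) (l2' : M < 2 * ‖d' - c‖) (l3 : M < 2 * ‖d - d'‖) : False := by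
  obtain ⟨X, Y⟩ := outer a b c d M g x y hM hg hx1 hy1 hs hd hab hac hbc l1 l2
  obtain ⟨X', Y'⟩ := outer a b c d' M g' x' y' hM hg' hx' hy' hs' hd' hab hac hbc l1' l2'
  rcases le_total g g' with h | h
  · exact twoOuter_aux a b c d d' M hM g x y g' x' y' hg hg'1 X Y hx1 hy1 X' Y' hx' hy' hs hs'
      hd hd' h hab hac hbc had' hbd' hcd' l1 l2 l3
  · exact twoOuter_aux a b c d' d M hM g' x' y' g x y hg' hg1 X' Y' hx' hy' X Y hx1 hy1 hs' hs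
      hd' hd h hab hac hbc had hbd hcd l1' l2' (by rw [norm_sub_rev]; exact l3)

end Pool.Agent.W247.Seven
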