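import Pool.Agent.W247.Seven.Final

set_option autoImplicit false

namespace Pool.Agent.W247.Seven

variable {E : Type} [NormedAddCommGroup E] [NormedSpace ℝ E]

/-- The vector `(s+t) a - s b - t c = s (a-b) + t (a-c)`. -/
theorem hexn (a b c : E) (M s t : ℝ) (hs : 0 ≤ s) (ht : 0 ≤ t)
    (hab : ‖a - b‖ ≤ M) (hac : ‖a - c‖ ≤ M) :
    ‖(s + t) • a - s • b - t • c‖ ≤ (s + t) * M := by
  have h : (s + t) • a - s • b - t • c = s • (a - b) + t • (a - c) := by module
  rw [h]
  calc ‖s • (a - b) + t • (a - c)‖ ≤ ‖s • (a - b)‖ + ‖t • (a - c)‖ := norm_add_le _ _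
    _ = s * ‖a - b‖ + t * ‖a - c‖ := by
        rw [norm_smul, norm_smul, Real.norm_of_nonneg hs, Real.norm_of_nonneg ht]
    _ ≤ s * M + t * M := add_le_add (mul_le_mul_of_nonneg_left hab hs)
        (mul_le_mul_of_nonneg_left hac ht)
    _ = (s + t) * M := by ring

/-- Bulge lemma: the outer point `d = -g a + g(1+w') b + g(1+w) c` (so that
`g (1 + w + w') = 1`), where `w = w_{ij}`, `w' = w_{ik}` for `a = a_i`, `b = a_j`, `c = a_k`. -/
theorem bulge (a b c d : E) (M s t g w w' : ℝ) (ht : 0 ≤ s)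
    (hg : 0 < g) (hw' : 0 ≤ w')
    (hd : d = (-g) • a + (g * (1 + w')) • b + (g * (1 + w)) • c)
    (hac : ‖a - c‖ ≤ M) (had : ‖a - d‖ ≤ M) (hsum : g * (1 + w + w') = 1)
    (hst : s * (1 + w) ≤ t * (1 + w')) :
    ‖(s + t) • a - s • b - t • c‖ * (1 + w') ≤ ((s + t) * (1 + w') - s) * M := by
  have hw1 : 0 < 1 + w' := by linarith
  set lam : ℝ := s / (g * (1 + w')) with hlam
  set mu : ℝ := t - s * (1 + w) / (1 + w') with hmu
  have hl0 : 0 ≤ lam := by positivity
  have hm0 : 0 ≤ mu := by
    rw [hmu, sub_nonneg, div_le_iff₀ hw1]; exact hst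
  have e1 : lam * (g * (1 + w')) = s := by rw [hlam]; field_simp
  have e2 : lam * (g * (1 + w)) + mu = t := by rw [hlam, hmu]; field_simp; ring
  have e3 : lam * (1 + g) + mu = s + t := by
    have : lam * (1 + g) = lam * (g * (1 + w')) + lam * (g * (1 + w)) := by
      have : 1 + g = g * (1 + w') + g * (1 + w) := by linarith
      rw [this]; ring
    rw [this]; linarith
  have h : (s + t) • a - s • b - t • c = lam • (a - d) + mu • (a - c) := by
    rw [hd, ← e3]
    nth_rewrite 1 [← e1]
    nth_rewrite 1 [← e2]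
    module
  have hn : ‖(s + t) • a - s • b - t • c‖ ≤ (lam + mu) * M := by
    rw [h]
    calc ‖lam • (a - d) + mu • (a - c)‖ ≤ ‖lam • (a - d)‖ + ‖mu • (a - c)‖ := norm_add_le _ _
      _ = lam * ‖a - d‖ + mu * ‖a - c‖ := by
          rw [norm_smul, norm_smul, Real.norm_of_nonneg hl0, Real.norm_of_nonneg hm0]
      _ ≤ lam * M + mu * M := add_le_add (mul_le_mul_of_nonneg_left had hl0)
          (mul_le_mul_of_nonneg_left hac hm0)
      _ = (lam + mu) * M := by ring
  have e4 : (lam + mu) * (1 + w') = (s + t) * (1 + w') - s := by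
    have : lam + mu = s + t - lam * g := by linarith
    rw [this]
    have : lam * g * (1 + w') = s := by rw [mul_assoc]; exact e1
    linarith
  calc ‖(s + t) • a - s • b - t • c‖ * (1 + w') ≤ ((lam + mu) * M) * (1 + w') :=
        mul_le_mul_of_nonneg_right hn hw1.le
    _ = ((lam + mu) * (1 + w')) * M := by ring
    _ = ((s + t) * (1 + w') - s) * M := by rw [e4]

/-- The same with the roles of `b`, `c` exchanged. -/
theorem bulge' (a b c d : E) (M s t g w w' : ℝ) (ht : 0 ≤ t)
    (hg : 0 < g) (hw : 0 ≤ w)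
    (hd : d = (-g) • a + (g * (1 + w')) • b + (g * (1 + w)) • c)
    (hab : ‖a - b‖ ≤ M) (had : ‖a - d‖ ≤ M) (hsum : g * (1 + w + w') = 1)
    (hst : t * (1 + w') ≤ s * (1 + w)) :
    ‖(s + t) • a - s • b - t • c‖ * (1 + w) ≤ ((s + t) * (1 + w) - t) * M := by
  have h := bulge a c b d M t s g w' w ht hg hw (by rw [hd]; module) hab had
    (by linarith) hst
  have e : (t + s) • a - t • c - s • b = (s + t) • a - s • b - t • c := by module
  rw [e] at h
  have e2 : (t + s) * (1 + w) - t = (s + t) * (1 + w) - t := by ring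
  rw [e2] at h
  exact h

/-- Edge condition.  `d = c_i`, `d' = c_k`. -/
theorem edge (ai aj ak d d' : E) (M gi wij wik gk wki wkj : ℝ) (hM : 0 < M)
    (hgi : 0 < gi) (hgk : 0 < gk) (hij : 0 ≤ wij) (hik : 0 ≤ wik) (hki : 0 ≤ wki) (hkj : 0 ≤ wkj)
    (hd : d = (-gi) • ai + (gi * (1 + wik)) • aj + (gi * (1 + wij)) • ak)
    (hd' : d' = (-gk) • ak + (gk * (1 + wkj)) • ai + (gk * (1 + wki)) • aj)
    (hsi : gi * (1 + wij + wik) = 1) (hsk : gk * (1 + wki + wkj) = 1)
    (h1 : ‖ai - aj‖ ≤ M) (h2 : ‖ai - ak‖ ≤ M) (h3 : ‖ai - d‖ ≤ M)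
    (hlow : M < 2 * ‖d' - aj‖) :
    2 * wkj < (1 + wik) * (1 + wkj - wki) ∨ 2 < (1 + wij) * (1 + wkj - wki) := by
  have hv : d' - aj = (gk * wkj + gk) • ai - (gk * wkj) • aj - gk • ak := by
    rw [hd']
    have : gk * (1 + wki) - 1 = -(gk * wkj) := by linarith
    have e : (-gk) • ak + (gk * (1 + wkj)) • ai + (gk * (1 + wki)) • aj - aj
        = (gk * wkj + gk) • ai + (gk * (1 + wki) - 1) • aj - gk • ak := by module
    rw [e, this]
    module
  rw [hv] at hlow
  rcases le_total (gk * wkj * (1 + wij)) (gk * (1 + wik)) with hle | hle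
  · left
    have hb := bulge ai aj ak d M (gk * wkj) gk gi wij wik (by positivity) hgi hik hd h2 h3 hsi hle
    have h4 : M * (1 + wik) < 2 * (((gk * wkj + gk) * (1 + wik) - gk * wkj) * M) := by
      have : M * (1 + wik) < 2 * ‖(gk * wkj + gk) • ai - (gk * wkj) • aj - gk • ak‖ * (1 + wik) :=
        mul_lt_mul_of_pos_right hlow (by linarith)
      linarith
    have h5 : (1 + wik) < 2 * ((gk * wkj + gk) * (1 + wik) - gk * wkj) := by
      have : M * (1 + wik) < M * (2 * ((gk * wkj + gk) * (1 + wik) - gk * wkj)) := by linarith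
      exact lt_of_mul_lt_mul_left this hM.le
    -- substitute 1 = gk (1 + wki + wkj)
    have h6 : gk * ((1 + wki + wkj) * (1 + wik)) < gk * (2 * ((wkj + 1) * (1 + wik) - wkj)) := by
      have : gk * ((1 + wki + wkj) * (1 + wik)) = 1 + wik := by
        rw [← mul_assoc, hsk, one_mul]
      rw [this]; linarith
    have h7 := lt_of_mul_lt_mul_left h6 hgk.le
    nlinarith
  · right
    have hb := bulge' ai aj ak d M (gk * wkj) gk gi wij wik hgk.le hgi hij hd h1 h3 hsi hle
    have h4 : M * (1 + wij) < 2 * (((gk * wkj + gk) * (1 + wij) - gk) * M) := by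
      have : M * (1 + wij) < 2 * ‖(gk * wkj + gk) • ai - (gk * wkj) • aj - gk • ak‖ * (1 + wij) :=
        mul_lt_mul_of_pos_right hlow (by linarith)
      linarith
    have h5 : (1 + wij) < 2 * ((gk * wkj + gk) * (1 + wij) - gk) := by
      have : M * (1 + wij) < M * (2 * ((gk * wkj + gk) * (1 + wij) - gk)) := by linarith
      exact lt_of_mul_lt_mul_left this hM.le
    have h6 : gk * ((1 + wki + wkj) * (1 + wij)) < gk * (2 * ((wkj + 1) * (1 + wij) - 1)) := by
      have : gk * ((1 + wki + wkj) * (1 + wij)) = 1 + wij := by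
        rw [← mul_assoc, hsk, one_mul]
      rw [this]; linarith
    have h7 := lt_of_mul_lt_mul_left h6 hgk.le
    nlinarith

/-- Condition from the centre. `ρ = 1 - 2β`. -/
theorem centre (ai aj ak d q : E) (M gi wij wik bi bj bk : ℝ) (hM : 0 < M)
    (hgi : 0 < gi) (hij : 0 ≤ wij) (hik : 0 ≤ wik)
    (hbj : 0 ≤ bj) (hbk : 0 ≤ bk) (hbs : bi + bj + bk = 1)
    (hbj2 : bj ≤ gi * (1 + wik)) (hbk2 : bk ≤ gi * (1 + wij))
    (hd : d = (-gi) • ai + (gi * (1 + wik)) • aj + (gi * (1 + wij)) • ak)
    (hq : q = bi • ai + bj • aj + bk • ak)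
    (hsi : gi * (1 + wij + wik) = 1)
    (h1 : ‖ai - aj‖ ≤ M) (h2 : ‖ai - ak‖ ≤ M) (h3 : ‖ai - d‖ ≤ M)
    (hlowa : M < 2 * ‖ai - q‖) (hlowd : M < 2 * ‖q - d‖) :
    (wik * (1 - 2 * bi) < 1 - 2 * bk ∧ 1 - 2 * bj < wij * (1 - 2 * bi)) ∨
    (wij * (1 - 2 * bi) < 1 - 2 * bj ∧ 1 - 2 * bk < wik * (1 - 2 * bi)) := by
  have hva : ai - q = (bj + bk) • ai - bj • aj - bk • ak := by
    rw [hq]
    have : bi = 1 - (bj + bk) := by linarith
    rw [this]; module
  have hvd : q - d = ((gi * (1 + wik) - bj) + (gi * (1 + wij) - bk)) • ai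
      - (gi * (1 + wik) - bj) • aj - (gi * (1 + wij) - bk) • ak := by
    rw [hq, hd]
    have : bi = ((gi * (1 + wik) - bj) + (gi * (1 + wij) - bk)) - gi := by linarith
    rw [this]; module
  rw [hva] at hlowa
  rw [hvd] at hlowd
  have hwik : 0 < 1 + wik := by linarith
  have hwij : 0 < 1 + wij := by linarith
  rcases le_total (bj * (1 + wij)) (bk * (1 + wik)) with hle | hle
  · right
    constructor
    · -- centre to d: second type
      have hb := bulge' ai aj ak d M (gi * (1 + wik) - bj) (gi * (1 + wij) - bk) gi wij wik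
        (by linarith) hgi hij hd h1 h3 hsi (by nlinarith)
      have h4 : M * (1 + wij) < 2 * ((((gi * (1 + wik) - bj) + (gi * (1 + wij) - bk)) * (1 + wij)
          - (gi * (1 + wij) - bk)) * M) := by
        have := mul_lt_mul_of_pos_right hlowd hwij
        linarith
      have h5 : (1 + wij) < 2 * (((gi * (1 + wik) - bj) + (gi * (1 + wij) - bk)) * (1 + wij)
          - (gi * (1 + wij) - bk)) := by
        have : M * (1 + wij) < M * (2 * (((gi * (1 + wik) - bj) + (gi * (1 + wij) - bk)) * (1 + wij)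
          - (gi * (1 + wij) - bk))) := by linarith
        exact lt_of_mul_lt_mul_left this hM.le
      have h6 : (gi * (1 + wik) - bj) + (gi * (1 + wij) - bk) = bi + gi := by linarith
      rw [h6] at h5
      nlinarith
    · have hb := bulge ai aj ak d M bj bk gi wij wik hbj hgi hik hd h2 h3 hsi hle
      have h4 : M * (1 + wik) < 2 * (((bj + bk) * (1 + wik) - bj) * M) := by
        have := mul_lt_mul_of_pos_right hlowa hwik
        linarith
      have h5 : (1 + wik) < 2 * ((bj + bk) * (1 + wik) - bj) := by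
        have : M * (1 + wik) < M * (2 * ((bj + bk) * (1 + wik) - bj)) := by linarith
        exact lt_of_mul_lt_mul_left this hM.le
      have h6 : bj + bk = 1 - bi := by linarith
      rw [h6] at h5
      nlinarith
  · left
    constructor
    · have hb := bulge ai aj ak d M (gi * (1 + wik) - bj) (gi * (1 + wij) - bk) gi wij wik
        (by linarith) hgi hik hd h2 h3 hsi (by nlinarith)
      have h4 : M * (1 + wik) < 2 * ((((gi * (1 + wik) - bj) + (gi * (1 + wij) - bk)) * (1 + wik)
          - (gi * (1 + wik) - bj)) * M) := by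
        have := mul_lt_mul_of_pos_right hlowd hwik
        linarith
      have h5 : (1 + wik) < 2 * (((gi * (1 + wik) - bj) + (gi * (1 + wij) - bk)) * (1 + wik)
          - (gi * (1 + wik) - bj)) := by
        have : M * (1 + wik) < M * (2 * (((gi * (1 + wik) - bj) + (gi * (1 + wij) - bk)) * (1 + wik)
          - (gi * (1 + wik) - bj))) := by linarith
        exact lt_of_mul_lt_mul_left this hM.le
      have h6 : (gi * (1 + wik) - bj) + (gi * (1 + wij) - bk) = bi + gi := by linarith
      rw [h6] at h5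
      nlinarith
    · have hb := bulge' ai aj ak d M bj bk gi wij wik hbk hgi hij hd h1 h3 hsi hle
      have h4 : M * (1 + wij) < 2 * (((bj + bk) * (1 + wij) - bk) * M) := by
        have := mul_lt_mul_of_pos_right hlowa hwij
        linarith
      have h5 : (1 + wij) < 2 * ((bj + bk) * (1 + wij) - bk) := by
        have : M * (1 + wij) < M * (2 * ((bj + bk) * (1 + wij) - bk)) := by linarith
        exact lt_of_mul_lt_mul_left this hM.le
      have h6 : bj + bk = 1 - bi := by linarith
      rw [h6] at h5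
      nlinarith

/-- Outer point: parameters.  `d = -g a + x b + y c`, all distances to `b`, `c` more than half. -/
theorem outer (a b c d : E) (M g x y : ℝ) (hM : 0 < M) (hg : 0 ≤ g) (hx : x ≤ 1) (hy : y ≤ 1)
    (hs : x + y = 1 + g) (hd : d = (-g) • a + x • b + y • c)
    (hab : ‖a - b‖ ≤ M) (hac : ‖a - c‖ ≤ M) (hbc : ‖b - c‖ ≤ M)
    (h1 : M < 2 * ‖d - b‖) (h2 : M < 2 * ‖d - c‖) : 1 / 2 < x ∧ 1 / 2 < y := by
  constructor
  · -- d - c = x b - g a - (1-y) c
    have e : d - c = (g + (1 - y)) • b - g • a - (1 - y) • c := by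
      rw [hd]
      have : x = g + (1 - y) := by linarith
      rw [this]; module
    have := hexn b a c M g (1 - y) hg (by linarith) (by rw [norm_sub_rev]; exact hab) hbc
    rw [← e] at this
    have h3 : M < 2 * ((g + (1 - y)) * M) := by linarith
    have h4 : g + (1 - y) = x := by linarith
    rw [h4] at h3
    nlinarith
  · have e : d - b = (g + (1 - x)) • c - g • a - (1 - x) • b := by
      rw [hd]
      have : y = g + (1 - x) := by linarith
      rw [this]; module
    have := hexn c a b M g (1 - x) hg (by linarith) (by rw [norm_sub_rev]; exact hac)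
      (by rw [norm_sub_rev]; exact hbc)
    rw [← e] at this
    have h3 : M < 2 * ((g + (1 - x)) * M) := by linarith
    have h4 : g + (1 - x) = y := by linarith
    rw [h4] at h3
    nlinarith

/-- Inner point: `q = β a + ...` with nonneg coefficients, far from `a`. -/
theorem inner (a b c q : E) (M β β' β'' : ℝ) (hM : 0 < M) (h' : 0 ≤ β') (h'' : 0 ≤ β'')
    (hs : β + β' + β'' = 1) (hq : q = β • a + β' • b + β'' • c)
    (hab : ‖a - b‖ ≤ M) (hac : ‖a - c‖ ≤ M) (h1 : M < 2 * ‖a - q‖) : β < 1 / 2 := by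
  have e : a - q = (β' + β'') • a - β' • b - β'' • c := by
    rw [hq]
    have : β = 1 - (β' + β'') := by linarith
    rw [this]; module
  have := hexn a b c M β' β'' h' h'' hab hac
  rw [← e] at this
  have h3 : M < 2 * ((β' + β'') * M) := by linarith
  have h4 : β' + β'' = 1 - β := by linarith
  rw [h4] at h3
  nlinarith

end Pool.Agent.W247.Seven
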