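import Mathlib

/-!
Real inequalities behind the seven points theorem in a normed plane (MP_08f092_co).
-/

set_option autoImplicit false

namespace Pool.Agent.W247.Seven

/-- Key cross lemma. -/
theorem lemZ (p q c e : ℝ) (hp : 0 ≤ p) (hq : 0 ≤ q) (hc : 0 ≤ c) (he : 0 ≤ e)
    (h1 : c < 1 + e) (h2 : p < 1 + q)
    (hE : 2 * p < (1 + e) * (1 + p - q)) (hF : 2 * c < (1 + q) * (1 + c - e)) :
    q < 1 ∧ e < 1 := by
  have hE' : p * (1 - e) < (1 + e) * (1 - q) := by nlinarith
  have hF' : c * (1 - q) < (1 + q) * (1 - e) := by nlinarith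
  have hq1 : q < 1 := by
    by_contra hcon
    push Not at hcon
    have he1 : 1 < e := by
      by_contra hcon2
      push Not at hcon2
      have := mul_nonneg hp (by linarith : (0:ℝ) ≤ 1 - e)
      have := mul_nonneg (by linarith : (0:ℝ) ≤ 1 + e) (by linarith : (0:ℝ) ≤ q - 1)
      nlinarith
    have a1 : (1 + q) * (e - 1) < c * (q - 1) := by nlinarith
    have a2 : (1 + e) * (q - 1) < p * (e - 1) := by nlinarith
    have a3 : c * (q - 1) ≤ (1 + e) * (q - 1) :=
      mul_le_mul_of_nonneg_right h1.le (by linarith)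
    have a4 : p * (e - 1) ≤ (1 + q) * (e - 1) :=
      mul_le_mul_of_nonneg_right h2.le (by linarith)
    linarith
  refine ⟨hq1, ?_⟩
  by_contra hcon
  push Not at hcon
  have := mul_nonneg hc (by linarith : (0:ℝ) ≤ 1 - q)
  have := mul_nonneg (by linarith : (0:ℝ) ≤ 1 + q) (by linarith : (0:ℝ) ≤ e - 1)
  nlinarith

/-- `2/(1+b) < δ`, `2/(1+c) < 2 - δ` give `bc > 1`. -/
theorem lemY (b c d : ℝ) (hb : 0 ≤ b) (hc : 0 ≤ c)
    (h1 : 2 < (1 + b) * d) (h2 : 2 < (1 + c) * (2 - d)) : 1 < b * c := by
  have a1 : (1 + c) * 2 < (1 + c) * ((1 + b) * d) :=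
    mul_lt_mul_of_pos_left h1 (by linarith)
  have a2 : (1 + b) * 2 < (1 + b) * ((1 + c) * (2 - d)) :=
    mul_lt_mul_of_pos_left h2 (by linarith)
  nlinarith

/-- Mixed case. -/
theorem mixed (a b p q c e : ℝ) (ha : 0 ≤ a) (hb : 0 ≤ b) (hp : 0 ≤ p) (hq : 0 ≤ q)
    (hc : 0 ≤ c) (he : 0 ≤ e)
    (hab : a < 1 + b) (hba : b < 1 + a) (hpq : p < 1 + q) (hqp : q < 1 + p)
    (hce : c < 1 + e) (hec : e < 1 + c)
    (A : 1 < a * p) (B : b * c < 1) (D : q * c < p) (E' : c < p * e)
    (E1b : 2 < (1 + b) * (1 + q - p) ∨ 2 * q < (1 + a) * (1 + q - p))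
    (E2a : 2 * b < (1 + p) * (1 + b - a) ∨ 2 < (1 + q) * (1 + b - a))
    (E2b : 2 < (1 + p) * (1 + c - e) ∨ 2 * c < (1 + q) * (1 + c - e))
    (E3a : 2 * p < (1 + e) * (1 + p - q) ∨ 2 < (1 + c) * (1 + p - q))
    (E3b : 2 < (1 + e) * (1 + a - b) ∨ 2 * a < (1 + c) * (1 + a - b)) : False := by
  have hp0 : 0 < p := by
    rcases hp.lt_or_eq with h | h
    · exact h
    · rw [← h] at A; simp at A; linarith
  have ha0 : 0 < a := by
    rcases ha.lt_or_eq with h | h
    · exact h
    · rw [← h] at A; simp at A; linarith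
  -- consequence of E2b1 : p > 1
  have hE2b1 : 2 < (1 + p) * (1 + c - e) → 1 < p := by
    intro h
    by_contra hcon
    push Not at hcon
    have h1 : p * 2 < p * ((1 + p) * (1 + c - e)) := mul_lt_mul_of_pos_left h hp0
    have h2 : (1 + p) * c < (1 + p) * (p * e) := mul_lt_mul_of_pos_left E' (by linarith)
    -- (1+p)(p+pc-c) > 2p
    have h3 : 2 * p < (1 + p) * (p + p * c - c) := by nlinarith
    -- (p-1)(p+c(p+1)) > 0
    have h4 : 0 < (p - 1) * (p + c * (p + 1)) := by nlinarith
    have h5 : 0 ≤ p + c * (p + 1) := by positivity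
    have h6 : 0 ≤ (1 - p) * (p + c * (p + 1)) := mul_nonneg (by linarith) h5
    nlinarith
  by_cases P' : 2 < (1 + b) * (1 + q - p)
  · -- Case P'
    rcases E3a with h3 | h3
    · -- E3a1
      have hbe : p * (1 + b) < b * (1 + e) := by
        have a1 : (1 + e) * 2 < (1 + e) * ((1 + b) * (1 + q - p)) :=
          mul_lt_mul_of_pos_left P' (by linarith)
        have a2 : (1 + b) * (2 * p) < (1 + b) * ((1 + e) * (1 + p - q)) :=
          mul_lt_mul_of_pos_left h3 (by linarith)
        nlinarith
      have hpos : 0 < 1 + e - p := by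
        by_contra hcon
        push Not at hcon
        have : b * (1 + e - p) ≤ 0 := mul_nonpos_of_nonneg_of_nonpos hb hcon
        nlinarith
      have hstar : p * (1 + c) < 1 + e := by
        have a1 : p < b * (1 + e - p) := by nlinarith
        have a2 : p * c ≤ b * (1 + e - p) * c := mul_le_mul_of_nonneg_right a1.le hc
        have a3 : (b * c) * (1 + e - p) < 1 * (1 + e - p) := mul_lt_mul_of_pos_right B hpos
        nlinarith
      rcases E2b with h2 | h2
      · -- E2b1 impossible
        have hp1 := hE2b1 h2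
        have a1 : (1 + p) * (1 + c - e) < (1 + p) * (2 + c - p * (1 + c)) :=
          mul_lt_mul_of_pos_left (by linarith) (by linarith)
        have a2 : 0 < (1 - p) * (c * (1 + p) + p) := by nlinarith
        have a3 : 0 ≤ (p - 1) * (c * (1 + p) + p) := mul_nonneg (by linarith) (by positivity)
        nlinarith
      · -- E2b2
        obtain ⟨hq1, he1⟩ := lemZ p q c e hp hq hc he hce hpq h3 h2
        rcases E2a with h4 | h4
        · -- E2a1
          have hp1 : 1 ≤ p := by
            by_contra hcon
            push Not at hcon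
            have : 0 ≤ b * (1 - p) := mul_nonneg hb (by linarith)
            have h5 : 0 < (1 + p) * (1 - a) := by nlinarith
            have ha1 : a < 1 := by
              by_contra hcon2
              push Not at hcon2
              have : 0 ≤ (1 + p) * (a - 1) := mul_nonneg (by linarith) (by linarith)
              nlinarith
            nlinarith
          have hb1 : 1 < b := by
            by_contra hcon
            push Not at hcon
            have h6 : 0 < 1 + q - p := by
              by_contra hcon2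
              push Not at hcon2
              have : (1 + b) * (1 + q - p) ≤ 0 :=
                mul_nonpos_of_nonneg_of_nonpos (by linarith) hcon2
              linarith
            have : (1 + b) * (1 + q - p) ≤ 2 * (1 + q - p) :=
              mul_le_mul_of_nonneg_right (by linarith) h6.le
            linarith
          have hc1 : c < 1 := by
            by_contra hcon
            push Not at hcon
            nlinarith
          rcases E3b with h5 | h5
          · have hab' : b < a := by
              by_contra hcon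
              push Not at hcon
              have h6 : 0 < 1 + a - b := by linarith
              have : (1 + e) * (1 + a - b) ≤ 2 * (1 + a - b) :=
                mul_le_mul_of_nonneg_right (by linarith) h6.le
              linarith
            have h7 : 2 * b < 1 + p := by
              have : (1 + p) * b < (1 + p) * a := mul_lt_mul_of_pos_left hab' (by linarith)
              nlinarith
            have h8 : p * (1 + b) < 2 * b := by
              have : (1 + b) * (1 + q - p) < (1 + b) * (2 - p) :=
                mul_lt_mul_of_pos_left (by linarith) (by linarith)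
              nlinarith
            nlinarith
          · have h6 : 0 ≤ a * (1 - c) := mul_nonneg ha (by linarith)
            have h7 : 0 ≤ (1 + c) * (b - 1) := mul_nonneg (by linarith) (by linarith)
            nlinarith
        · -- E2a2
          have hba' : a < b := by
            by_contra hcon
            push Not at hcon
            have h6 : 0 < 1 + b - a := by linarith
            have : (1 + q) * (1 + b - a) ≤ 2 * (1 + b - a) :=
              mul_le_mul_of_nonneg_right (by linarith) h6.le
            linarith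
          rcases E3b with h5 | h5
          · have h6 : 0 < 1 + a - b := by linarith
            have : (1 + e) * (1 + a - b) ≤ 2 * (1 + a - b) :=
              mul_le_mul_of_nonneg_right (by linarith) h6.le
            linarith
          · have hb1 : b < 1 := by
              by_contra hcon
              push Not at hcon
              have hc1 : c < 1 := by
                by_contra hcon2
                push Not at hcon2
                nlinarith
              have h6 : 0 ≤ a * (1 - c) := mul_nonneg ha (by linarith)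
              have h7 : 0 ≤ (1 + c) * (b - 1) := mul_nonneg (by linarith) (by linarith)
              nlinarith
            have hp1 : 1 < p := by
              by_contra hcon
              push Not at hcon
              nlinarith
            have h6 : 0 < 1 + q - p := by
              by_contra hcon2
              push Not at hcon2
              have : (1 + b) * (1 + q - p) ≤ 0 :=
                mul_nonpos_of_nonneg_of_nonpos (by linarith) hcon2
              linarith
            have : (1 + b) * (1 + q - p) ≤ 2 * (1 + q - p) :=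
              mul_le_mul_of_nonneg_right (by linarith) h6.le
            linarith
    · -- E3a2 impossible
      have := lemY b c (1 + q - p) hb hc P' (by
        have : 2 - (1 + q - p) = 1 + p - q := by ring
        rw [this]; exact h3)
      linarith
  · -- Case not P'
    have h1 : 2 * q < (1 + a) * (1 + q - p) := by
      rcases E1b with h | h
      · exact absurd h P'
      · exact h
    have h1' : q * (1 - a) < (1 + a) * (1 - p) := by nlinarith
    have ha1 : 1 < a := by
      by_contra hcon
      push Not at hcon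
      have hp1 : 1 < p := by
        by_contra hcon2
        push Not at hcon2
        nlinarith
      have : 0 ≤ q * (1 - a) := mul_nonneg hq (by linarith)
      have : 0 ≤ (1 + a) * (p - 1) := mul_nonneg (by linarith) (by linarith)
      nlinarith
    have h2 : 2 < (1 + q) * (1 + b - a) := by
      rcases E2a with h | h
      · exfalso
        have h' : b * (1 - p) < (1 + p) * (1 - a) := by nlinarith
        have hp1 : 1 < p := by
          by_contra hcon
          push Not at hcon
          have : 0 ≤ b * (1 - p) := mul_nonneg hb (by linarith)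
          have : 0 ≤ (1 + p) * (a - 1) := mul_nonneg (by linarith) (by linarith)
          nlinarith
        have a1 : (1 + a) * (p - 1) < q * (a - 1) := by nlinarith
        have a2 : (1 + p) * (a - 1) < b * (p - 1) := by nlinarith
        have a3 : q * (a - 1) ≤ (1 + p) * (a - 1) :=
          mul_le_mul_of_nonneg_right hqp.le (by linarith)
        have a4 : b * (p - 1) ≤ (1 + a) * (p - 1) :=
          mul_le_mul_of_nonneg_right hba.le (by linarith)
        linarith
      · exact h
    have hk0 : 0 < 1 + b - a := by linarith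
    have a1 : (1 + a) * (p - 1) < q * (a - 1) := by nlinarith
    -- E3b2 impossible
    have h3 : 2 < (1 + e) * (1 + a - b) := by
      rcases E3b with h | h
      · exact h
      · exfalso
        have hb1 : b < 1 := by
          by_contra hcon
          push Not at hcon
          have hc1 : c < 1 := by
            by_contra hcon2
            push Not at hcon2
            have hc1' : c ≤ 1 := by
              by_contra hcon3
              push Not at hcon3
              nlinarith
            have : c = 1 := le_antisymm hc1' hcon2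
            rw [this] at B
            linarith
          have h6 : 0 ≤ a * (1 - c) := mul_nonneg ha (by linarith)
          have h7 : 0 ≤ (1 + c) * (b - 1) := mul_nonneg (by linarith) (by linarith)
          nlinarith
        have hq1 : 1 < q := by
          by_contra hcon
          push Not at hcon
          have : (1 + q) * (1 + b - a) ≤ 2 * (1 + b - a) :=
            mul_le_mul_of_nonneg_right (by linarith) hk0.le
          linarith
        -- (i)
        have i1 : q * c * (a + 1) < (a + 1) + q * (a - 1) := by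
          have : q * c * (a + 1) < p * (a + 1) := mul_lt_mul_of_pos_right D (by linarith)
          nlinarith
        have i2 : a - 1 + b < c * (a + 1 - b) := by nlinarith
        have hqa : 0 < q * (a + 1) := by positivity
        have i3 : q * (a + 1) * (a - 1 + b) < q * (a + 1) * (c * (a + 1 - b)) :=
          mul_lt_mul_of_pos_left i2 hqa
        have i4 : (q * c * (a + 1)) * (a + 1 - b) < ((a + 1) + q * (a - 1)) * (a + 1 - b) :=
          mul_lt_mul_of_pos_right i1 (by linarith)
        -- with k = 1 + b - a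
        have i5 : (a + 1) * (a + 1 - b) < (a + 1) * (q * (1 + b - a)) :=
          mul_lt_mul_of_pos_left (by nlinarith) (by linarith)
        have i6 : 2 * (q * (a + 1) * (a - 1)) < q * (a - 1) * (a + 1 - b) := by nlinarith
        have i7 : 0 < q * (a - 1) := mul_pos (by linarith) (by linarith)
        nlinarith
    have heq : 1 < q * e := by
      apply lemY q e (1 + b - a) hq he h2
      have : 2 - (1 + b - a) = 1 + a - b := by ring
      rw [this]; exact h3
    by_cases h3a2 : 2 < (1 + c) * (1 + p - q)
    · -- E3a2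
      have iv : q * (1 + c) < (1 + a) * c := by
        have b1 : (1 + c) * (2 * q) < (1 + c) * ((1 + a) * (1 + q - p)) :=
          mul_lt_mul_of_pos_left h1 (by linarith)
        have b2 : (1 + a) * 2 < (1 + a) * ((1 + c) * (1 + p - q)) :=
          mul_lt_mul_of_pos_left h3a2 (by linarith)
        nlinarith
      have hpos : 0 < 1 + a - q := by
        by_contra hcon
        push Not at hcon
        have : c * (1 + a - q) ≤ 0 := mul_nonpos_of_nonneg_of_nonpos hc hcon
        nlinarith
      have v : q * (1 + b) < 1 + a := by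
        have c1 : q < c * (1 + a - q) := by nlinarith
        have c2 : b * q ≤ b * (c * (1 + a - q)) := mul_le_mul_of_nonneg_left c1.le hb
        have c3 : (b * c) * (1 + a - q) < 1 * (1 + a - q) := mul_lt_mul_of_pos_right B hpos
        nlinarith
      have vi : 1 + a - b < q * (1 + b - a) := by nlinarith
      have hlt : a < b := by
        have d1 : (q * (1 + b)) * (1 + b - a) < (1 + a) * (1 + b - a) :=
          mul_lt_mul_of_pos_right v hk0
        have d2 : (1 + b) * (1 + a - b) < (1 + b) * (q * (1 + b - a)) :=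
          mul_lt_mul_of_pos_left vi (by linarith)
        have d3 : 0 < (b - a) * (1 + a + b) := by nlinarith
        by_contra hcon
        push Not at hcon
        have : 0 ≤ (a - b) * (1 + a + b) := mul_nonneg (by linarith) (by linarith)
        nlinarith
      have hc1 : c < 1 := by
        by_contra hcon
        push Not at hcon
        nlinarith
      have hq1 : q < 1 := by
        by_contra hcon
        push Not at hcon
        have : 1 * (1 + b) ≤ q * (1 + b) := mul_le_mul_of_nonneg_right hcon (by linarith)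
        linarith
      have he1 : 1 < e := by
        by_contra hcon
        push Not at hcon
        have h6 : 0 < 1 + a - b := by
          by_contra hcon2
          push Not at hcon2
          have : (1 + e) * (1 + a - b) ≤ 0 :=
            mul_nonpos_of_nonneg_of_nonpos (by linarith) hcon2
          linarith
        have : (1 + e) * (1 + a - b) ≤ 2 * (1 + a - b) :=
          mul_le_mul_of_nonneg_right (by linarith) h6.le
        linarith
      rcases E2b with h4 | h4
      · -- E2b1
        have vii : p * (1 + b) < a + b := by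
          have e1 : ((1 + a) * (p - 1)) * (1 + b) < (q * (a - 1)) * (1 + b) :=
            mul_lt_mul_of_pos_right a1 (by linarith)
          have e2 : (q * (1 + b)) * (a - 1) < (1 + a) * (a - 1) :=
            mul_lt_mul_of_pos_right v (by linarith)
          have e3 : (1 + a) * ((p - 1) * (1 + b)) < (1 + a) * (a - 1) := by nlinarith
          have e4 : (p - 1) * (1 + b) < a - 1 := lt_of_mul_lt_mul_left e3 (by linarith)
          nlinarith
        have f1 : 2 < (1 + p) * c := by
          have : (1 + p) * (1 + c - e) ≤ (1 + p) * c :=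
            mul_le_mul_of_nonneg_left (by linarith) (by linarith)
          linarith
        have f2 : b * 2 < b * ((1 + p) * c) := mul_lt_mul_of_pos_left f1 (by linarith)
        have f3 : (1 + p) * (b * c) < (1 + p) * 1 := mul_lt_mul_of_pos_left B (by linarith)
        have f4 : 2 * b < 1 + p := by nlinarith
        have f5 : (2 * b - 1) * (1 + b) < 2 * b := by
          have : (2 * b - 1) * (1 + b) < p * (1 + b) :=
            mul_lt_mul_of_pos_right (by linarith) (by linarith)
          linarith
        nlinarith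
      · -- E2b2
        have g0 : 0 < 1 + c - e := by linarith
        have : (1 + q) * (1 + c - e) ≤ 2 * (1 + c - e) :=
          mul_le_mul_of_nonneg_right (by linarith) g0.le
        linarith
    · -- E3a1
      have h3a1 : 2 * p < (1 + e) * (1 + p - q) := by
        rcases E3a with h | h
        · exact h
        · exact absurd h h3a2
      rcases E2b with h4 | h4
      · -- E2b1
        have hp1 := hE2b1 h4
        have he1 : 1 < e := by
          by_contra hcon
          push Not at hcon
          have h6 : 0 < 1 + p - q := by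
            by_contra hcon2
            push Not at hcon2
            have : (1 + e) * (1 + p - q) ≤ 0 :=
              mul_nonpos_of_nonneg_of_nonpos (by linarith) hcon2
            linarith
          have h7 : (1 + e) * (1 + p - q) ≤ 2 * (1 + p - q) :=
            mul_le_mul_of_nonneg_right (by linarith) h6.le
          have hq1 : q < 1 := by linarith
          have : q * e ≤ 1 * 1 := mul_le_mul hq1.le hcon he (by norm_num)
          linarith
        -- (P1), (Q1)
        have r1 : (1 + e) * (q - 1) < p * (e - 1) := by nlinarith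
        have P1 : p * (a + e) < a * (1 + e) := by
          have s1 : ((1 + a) * (p - 1)) * (1 + e) < (q * (a - 1)) * (1 + e) :=
            mul_lt_mul_of_pos_right a1 (by linarith)
          have s2 : ((1 + e) * (q - 1)) * (a - 1) < (p * (e - 1)) * (a - 1) :=
            mul_lt_mul_of_pos_right r1 (by linarith)
          nlinarith
        have Q1 : q * (a + e) < e * (1 + a) := by
          have s1 : ((1 + a) * (p - 1)) * (e - 1) < (q * (a - 1)) * (e - 1) :=
            mul_lt_mul_of_pos_right a1 (by linarith)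
          have s2 : ((1 + e) * (q - 1)) * (1 + a) < (p * (e - 1)) * (1 + a) :=
            mul_lt_mul_of_pos_right r1 (by linarith)
          nlinarith
        -- (I) b > a(a+1)(e+1)/(ae+2e+a)
        have I : a * (a + 1) * (e + 1) < b * (a * e + 2 * e + a) := by
          have t1 : (1 + q) * (a + e) < a * e + 2 * e + a := by nlinarith
          have t2 : ((1 + q) * (a + e)) * (1 + b - a) < (a * e + 2 * e + a) * (1 + b - a) :=
            mul_lt_mul_of_pos_right t1 hk0
          have t3 : 2 * (a + e) < ((1 + q) * (1 + b - a)) * (a + e) :=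
            mul_lt_mul_of_pos_right h2 (by linarith)
          nlinarith
        have II : e * (a + 1) * (e + 1) < c * (a * e + 2 * a + e) := by
          have hk1 : 0 < 1 + c - e := by linarith
          have t1 : (1 + p) * (a + e) < a * e + 2 * a + e := by nlinarith
          have t2 : ((1 + p) * (a + e)) * (1 + c - e) < (a * e + 2 * a + e) * (1 + c - e) :=
            mul_lt_mul_of_pos_right t1 hk1
          have t3 : 2 * (a + e) < ((1 + p) * (1 + c - e)) * (a + e) :=
            mul_lt_mul_of_pos_right h4 (by linarith)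
          nlinarith
        have I' : a * (e + 1) < b * (e * (a + 1)) := by
          -- e(a+1)^2 ≥ ae+2e+a
          have u1 : a * e + 2 * e + a ≤ e * (a + 1) ^ 2 := by nlinarith [mul_pos ha0 (by linarith : (0:ℝ) < e)]
          have u2 : b * (a * e + 2 * e + a) ≤ b * (e * (a + 1) ^ 2) :=
            mul_le_mul_of_nonneg_left u1 hb
          have u3 : (a + 1) * (a * (e + 1)) < (a + 1) * (b * (e * (a + 1))) := by nlinarith
          exact lt_of_mul_lt_mul_left u3 (by linarith)
        have II' : e * (a + 1) < c * (a * (e + 1)) := by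
          have u1 : a * e + 2 * a + e ≤ a * (e + 1) ^ 2 := by nlinarith [mul_pos ha0 (by linarith : (0:ℝ) < e)]
          have u2 : c * (a * e + 2 * a + e) ≤ c * (a * (e + 1) ^ 2) :=
            mul_le_mul_of_nonneg_left u1 hc
          have u3 : (e + 1) * (e * (a + 1)) < (e + 1) * (c * (a * (e + 1))) := by nlinarith
          exact lt_of_mul_lt_mul_left u3 (by linarith)
        have w1 : 0 < a * (e + 1) := by positivity
        have w2 : 0 < e * (a + 1) := by positivity
        have w3 : (a * (e + 1)) * (e * (a + 1)) < (b * (e * (a + 1))) * (c * (a * (e + 1))) :=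
          mul_lt_mul'' I' II' w1.le w2.le
        have w4 : 0 < (a * (e + 1)) * (e * (a + 1)) := mul_pos w1 w2
        have w5 : (b * c) * ((a * (e + 1)) * (e * (a + 1))) < 1 * ((a * (e + 1)) * (e * (a + 1))) :=
          mul_lt_mul_of_pos_right B w4
        nlinarith
      · -- E2b2
        obtain ⟨hq1, he1⟩ := lemZ p q c e hp hq hc he hce hpq h3a1 h4
        have : q * e ≤ 1 * 1 := mul_le_mul hq1.le he1.le he (by norm_num)
        linarith

/-! ### The cyclic case -/

theorem alpha_lt (m l l' t : ℝ) (hl : 0 ≤ l) (hl' : 0 ≤ l')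
    (hm : t < m) (htl : t * l' < 1)
    (hα : 2 * l < (1 + l') * (1 + l - m)) : t < 1 := by
  by_contra hcon
  push Not at hcon
  have h1 : l' < 1 := by
    by_contra h
    push Not at h
    nlinarith
  have h2 : 0 ≤ (1 + l') * (m - 1) := mul_nonneg (by linarith) (by linarith)
  have h3 : 0 ≤ l * (1 - l') := mul_nonneg hl (by linarith)
  nlinarith

/-- `β_k` forces `m_{k+1} ≥ 1`: here `t0 = t_{k-1}`, `t1 = t_k`, `t2 = t_{k+1}`. -/
theorem beta_ge (m l m' t0 t1 t2 : ℝ) (ht0 : 0 < t0) (ht1 : 0 < t1)
    (hprod : t0 * t1 * t2 = 1)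
    (hm' : 0 ≤ m') (h0 : t0 * l < 1) (h1 : t1 < m) (h2 : t2 < m')
    (hβ : 2 < (1 + m') * (1 + l - m)) : 1 ≤ m' := by
  by_contra hcon
  push Not at hcon
  have hpos : 0 < 1 + l - m := by
    by_contra h
    push Not at h
    have : (1 + m') * (1 + l - m) ≤ 0 := mul_nonpos_of_nonneg_of_nonpos (by linarith) h
    linarith
  have h3 : (1 + m') * (1 + l - m) ≤ 2 * (1 + l - m) :=
    mul_le_mul_of_nonneg_right (by linarith) hpos.le
  have h4 : m < l := by linarith
  have h5 : t0 * t1 < 1 := by
    have : t0 * t1 < t0 * l := mul_lt_mul_of_pos_left (by linarith) ht0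
    linarith
  have h6 : t0 * t1 * t2 < 1 := by
    have h7 : 0 < t0 * t1 := mul_pos ht0 ht1
    have : t0 * t1 * t2 < t0 * t1 * 1 := mul_lt_mul_of_pos_left (by linarith) h7
    linarith
  linarith

theorem pair (m1 l1 l2 m3 l3 t1 t2 t3 : ℝ)
    (hl1 : 0 ≤ l1) (hl2 : 0 ≤ l2) (hl3 : 0 ≤ l3) (ht1 : 0 < t1) (ht2 : 0 < t2) (ht3 : 0 < t3)
    (hprod : t1 * t2 * t3 = 1) (hd : m1 < 1 + l1)
    (a1 : t1 * l2 < 1) (a2 : t2 * l3 < 1) (a3 : t3 * l1 < 1) (b3 : t3 < m3)
    (hα : 2 * l1 < (1 + l2) * (1 + l1 - m1)) (hβ : 2 < (1 + m1) * (1 + l3 - m3))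
    (hm1 : 1 ≤ m1) (hm3 : 1 ≤ m3) : False := by
  have hα' : (1 + l2) * (m1 - 1) < l1 * (l2 - 1) := by nlinarith
  have hl2' : 1 < l2 := by
    by_contra h
    push Not at h
    have := mul_nonneg (by linarith : (0:ℝ) ≤ 1 + l2) (by linarith : (0:ℝ) ≤ m1 - 1)
    have := mul_nonneg hl1 (by linarith : (0:ℝ) ≤ 1 - l2)
    nlinarith
  -- l3 (1 + m1) > 2
  have h3 : 2 < l3 * (1 + m1) := by nlinarith
  have hl3' : 0 < l3 := by
    by_contra h
    push Not at h
    have : l3 = 0 := le_antisymm h hl3
    rw [this] at h3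
    simp at h3
    linarith
  -- (1)
  have e1 : l2 * l3 < m3 := by
    -- l2*l3 = (t1*l2) * (t2*t3*l3)
    have e2 : l2 * l3 = (t1 * l2) * (t2 * t3 * l3) := by
      calc l2 * l3 = (t1 * t2 * t3) * (l2 * l3) := by rw [hprod]; ring
        _ = (t1 * l2) * (t2 * t3 * l3) := by ring
    have e3 : 0 < t2 * t3 * l3 := by positivity
    have e4 : (t1 * l2) * (t2 * t3 * l3) < 1 * (t2 * t3 * l3) := mul_lt_mul_of_pos_right a1 e3
    have e5 : (t2 * l3) * t3 < 1 * t3 := mul_lt_mul_of_pos_right a2 ht3
    nlinarith
  have e6 : (l2 - 1) * (l3 * (1 + m1)) < m1 - 1 := by nlinarith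
  have e7 : (l2 - 1) * 2 < m1 - 1 := by
    have : (l2 - 1) * 2 < (l2 - 1) * (l3 * (1 + m1)) := mul_lt_mul_of_pos_left h3 (by linarith)
    linarith
  have e8 : 2 * (1 + l2) < l1 := by
    have f1 : (1 + l2) * ((l2 - 1) * 2) < (1 + l2) * (m1 - 1) :=
      mul_lt_mul_of_pos_left e7 (by linarith)
    have f2 : (l2 - 1) * (2 * (1 + l2)) < (l2 - 1) * l1 := by nlinarith
    exact lt_of_mul_lt_mul_left f2 (by linarith)
  -- (2)
  have g1 : l1 * l2 * l3 < 1 := by
    have g2 : l1 * l2 * l3 = (t1 * l2) * ((t2 * l3) * (t3 * l1)) := by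
      calc l1 * l2 * l3 = (t1 * t2 * t3) * (l1 * l2 * l3) := by rw [hprod]; ring
        _ = (t1 * l2) * ((t2 * l3) * (t3 * l1)) := by ring
    have g3 : 0 ≤ (t2 * l3) * (t3 * l1) := by positivity
    have g4 : (t2 * l3) * (t3 * l1) < 1 := by
      have : (t2 * l3) * (t3 * l1) < 1 * 1 :=
        mul_lt_mul'' a2 a3 (by positivity) (by positivity)
      linarith
    have g5 : (t1 * l2) * ((t2 * l3) * (t3 * l1)) ≤ 1 * ((t2 * l3) * (t3 * l1)) :=
      mul_le_mul_of_nonneg_right a1.le g3
    rw [g2]
    linarith
  have g6 : 2 < l3 * (2 + l1) := by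
    have : l3 * (1 + m1) < l3 * (2 + l1) := mul_lt_mul_of_pos_left (by linarith) hl3'
    linarith
  -- 2 l1 l2 < 2 + l1
  have hl12 : 0 < l1 * l2 := by
    apply mul_pos <;> linarith
  have g7 : (l1 * l2) * 2 < (l1 * l2) * (l3 * (2 + l1)) := mul_lt_mul_of_pos_left g6 hl12
  have g8 : (l1 * l2 * l3) * (2 + l1) < 1 * (2 + l1) := mul_lt_mul_of_pos_right g1 (by linarith)
  have g9 : 2 * (l1 * l2) < 2 + l1 := by nlinarith
  nlinarith

theorem triple (m1 l1 m2 l2 m3 l3 : ℝ)
    (hl1 : 0 ≤ l1) (hl2 : 0 ≤ l2) (hl3 : 0 ≤ l3)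
    (hm1 : 1 ≤ m1) (hm2 : 1 ≤ m2) (hm3 : 1 ≤ m3) (hprod : l1 * l2 * l3 < 1)
    (h1 : 2 < (1 + m2) * (1 + l1 - m1)) (h2 : 2 < (1 + m3) * (1 + l2 - m2))
    (h3 : 2 < (1 + m1) * (1 + l3 - m3)) : False := by
  have a1 : 1 + m1 < l1 * (1 + m2) := by nlinarith
  have a2 : 1 + m2 < l2 * (1 + m3) := by nlinarith
  have a3 : 1 + m3 < l3 * (1 + m1) := by nlinarith
  have b1 : (1 + m1) * (1 + m2) < (l1 * (1 + m2)) * (l2 * (1 + m3)) :=
    mul_lt_mul'' a1 a2 (by linarith) (by linarith)
  have b2 : ((1 + m1) * (1 + m2)) * (1 + m3) <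
      ((l1 * (1 + m2)) * (l2 * (1 + m3))) * (l3 * (1 + m1)) :=
    mul_lt_mul'' b1 a3 (by positivity) (by linarith)
  have b3 : 0 < (1 + m1) * (1 + m2) * (1 + m3) := by positivity
  have b4 : (l1 * l2 * l3) * ((1 + m1) * (1 + m2) * (1 + m3)) <
      1 * ((1 + m1) * (1 + m2) * (1 + m3)) := mul_lt_mul_of_pos_right hprod b3
  nlinarith

/-- Cyclic case. -/
theorem cyclic (m1 l1 m2 l2 m3 l3 t1 t2 t3 : ℝ)
    (hm1 : 0 ≤ m1) (hl1 : 0 ≤ l1) (hm2 : 0 ≤ m2) (hl2 : 0 ≤ l2) (hm3 : 0 ≤ m3) (hl3 : 0 ≤ l3)
    (hd1 : m1 < 1 + l1) (hd2 : m2 < 1 + l2) (hd3 : m3 < 1 + l3)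
    (ht1 : 0 < t1) (ht2 : 0 < t2) (ht3 : 0 < t3) (hprod : t1 * t2 * t3 = 1)
    (b1 : t1 < m1) (b2 : t2 < m2) (b3 : t3 < m3)
    (a1 : t1 * l2 < 1) (a2 : t2 * l3 < 1) (a3 : t3 * l1 < 1)
    (G1 : 2 * l1 < (1 + l2) * (1 + l1 - m1) ∨ 2 < (1 + m2) * (1 + l1 - m1))
    (G2 : 2 * l2 < (1 + l3) * (1 + l2 - m2) ∨ 2 < (1 + m3) * (1 + l2 - m2))
    (G3 : 2 * l3 < (1 + l1) * (1 + l3 - m3) ∨ 2 < (1 + m1) * (1 + l3 - m3)) : False := by
  have hprod' : t2 * t3 * t1 = 1 := by rw [← hprod]; ring
  have hprod'' : t3 * t1 * t2 = 1 := by rw [← hprod]; ring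
  have lll : l1 * l2 * l3 < 1 := by
    have g2 : l1 * l2 * l3 = (t1 * l2) * ((t2 * l3) * (t3 * l1)) := by
      calc l1 * l2 * l3 = (t1 * t2 * t3) * (l1 * l2 * l3) := by rw [hprod]; ring
        _ = (t1 * l2) * ((t2 * l3) * (t3 * l1)) := by ring
    have g3 : 0 ≤ (t2 * l3) * (t3 * l1) := by positivity
    have g4 : (t2 * l3) * (t3 * l1) < 1 := by
      have : (t2 * l3) * (t3 * l1) < 1 * 1 :=
        mul_lt_mul'' a2 a3 (by positivity) (by positivity)
      linarith
    have g5 : (t1 * l2) * ((t2 * l3) * (t3 * l1)) ≤ 1 * ((t2 * l3) * (t3 * l1)) :=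
      mul_le_mul_of_nonneg_right a1.le g3
    rw [g2]
    linarith
  have hα1 := alpha_lt m1 l1 l2 t1 hl1 hl2 b1 a1
  have hα2 := alpha_lt m2 l2 l3 t2 hl2 hl3 b2 a2
  have hα3 := alpha_lt m3 l3 l1 t3 hl3 hl1 b3 a3
  have hβ1 := beta_ge m1 l1 m2 t3 t1 t2 ht3 ht1 hprod'' hm2 a3 b1 b2
  have hβ2 := beta_ge m2 l2 m3 t1 t2 t3 ht1 ht2 hprod hm3 a1 b2 b3
  have hβ3 := beta_ge m3 l3 m1 t2 t3 t1 ht2 ht3 hprod' hm1 a2 b3 b1
  -- products
  have key : ∀ x y z : ℝ, 0 < x → 0 < y → x * y * z = 1 → x < 1 → y < 1 → 1 < z := by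
    intro x y z hx hy hxyz hx1 hy1
    by_contra h
    push Not at h
    have hxy : x * y < 1 := by nlinarith
    have hxy0 : 0 < x * y := mul_pos hx hy
    have : x * y * z ≤ x * y * 1 := mul_le_mul_of_nonneg_left h hxy0.le
    linarith
  rcases G1 with g1 | g1 <;> rcases G2 with g2 | g2 <;> rcases G3 with g3 | g3
  · -- ααα
    have := key t1 t2 t3 ht1 ht2 hprod (hα1 g1) (hα2 g2)
    have := hα3 g3
    linarith
  · -- α α β : pair (β3, α1), m1 ≥ 1 by β3, m3 ≥ 1 as t3 > 1
    have h := key t1 t2 t3 ht1 ht2 hprod (hα1 g1) (hα2 g2)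
    exact pair m1 l1 l2 m3 l3 t1 t2 t3 hl1 hl2 hl3 ht1 ht2 ht3 hprod hd1 a1 a2 a3 b3 g1 g3
      (hβ3 g3) (by linarith)
  · -- α β α : pair (β2, α3)
    have h := key t3 t1 t2 ht3 ht1 hprod'' (hα3 g3) (hα1 g1)
    exact pair m3 l3 l1 m2 l2 t3 t1 t2 hl3 hl1 hl2 ht3 ht1 ht2 hprod'' hd3 a3 a1 a2 b2 g3 g2
      (hβ2 g2) (by linarith)
  · -- α β β : pair (β3, α1), m3 ≥ 1 by β2
    exact pair m1 l1 l2 m3 l3 t1 t2 t3 hl1 hl2 hl3 ht1 ht2 ht3 hprod hd1 a1 a2 a3 b3 g1 g3
      (hβ3 g3) (hβ2 g2)
  · -- β α α : pair (β1, α2)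
    have h := key t2 t3 t1 ht2 ht3 hprod' (hα2 g2) (hα3 g3)
    exact pair m2 l2 l3 m1 l1 t2 t3 t1 hl2 hl3 hl1 ht2 ht3 ht1 hprod' hd2 a2 a3 a1 b1 g2 g1
      (hβ1 g1) (by linarith)
  · -- β α β : pair (β1, α2), m1 ≥ 1 by β3
    exact pair m2 l2 l3 m1 l1 t2 t3 t1 hl2 hl3 hl1 ht2 ht3 ht1 hprod' hd2 a2 a3 a1 b1 g2 g1
      (hβ1 g1) (hβ3 g3)
  · -- β β α : pair (β2, α3), m2 ≥ 1 by β1
    exact pair m3 l3 l1 m2 l2 t3 t1 t2 hl3 hl1 hl2 ht3 ht1 ht2 hprod'' hd3 a3 a1 a2 b2 g3 g2
      (hβ2 g2) (hβ1 g1)
  · -- β β β
    exact triple m1 l1 m2 l2 m3 l3 hl1 hl2 hl3 (hβ3 g3) (hβ1 g1) (hβ2 g2) lll g1 g2 g3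

end Pool.Agent.W247.Seven
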