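import Pool.Agent.W247.Seven.Main

set_option autoImplicit false

namespace Pool.Agent.W247.Seven

variable {E : Type} [NormedAddCommGroup E] [NormedSpace ℝ E]

/-- Three collinear points already give the conclusion. -/
theorem collinear3 (a b c : E) (M t : ℝ) (hc : c - a = t • (b - a))
    (hab : ‖b - a‖ ≤ M) (hac : ‖c - a‖ ≤ M) (hbc : ‖c - b‖ ≤ M)
    (l1 : M < 2 * ‖b - a‖) (l2 : M < 2 * ‖c - a‖) (l3 : M < 2 * ‖c - b‖) : False := by
  have hcb : c - b = (t - 1) • (b - a) := by
    have : c - b = (c - a) - (b - a) := by abel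
    rw [this, hc]; module
  have e1 : ‖c - a‖ = |t| * ‖b - a‖ := by rw [hc, norm_smul, Real.norm_eq_abs]
  have e2 : ‖c - b‖ = |t - 1| * ‖b - a‖ := by rw [hcb, norm_smul, Real.norm_eq_abs]
  rw [e1] at hac l2
  rw [e2] at hbc l3
  rcases le_total 0 t with h0 | h0
  · rw [abs_of_nonneg h0] at hac l2
    rcases le_total 1 t with h1 | h1
    · rw [abs_of_nonneg (by linarith)] at hbc l3
      nlinarith
    · rw [abs_of_nonpos (by linarith)] at hbc l3
      nlinarith
  · rw [abs_of_nonpos h0] at hac l2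
    rw [abs_of_nonpos (by linarith)] at hbc l3
    nlinarith

/-- Barycentric coordinates with respect to a triangle of maximal area. -/
theorem coords (h2 : Module.finrank ℝ E = 2) (p : Fin 7 → E) (hp : Function.Injective p) :
    (∃ t : ℝ, p 2 - p 0 = t • (p 1 - p 0)) ∨
    ∃ (i j k : Fin 7) (b1 b2 b3 : Fin 7 → ℝ), i ≠ j ∧ i ≠ k ∧ j ≠ k ∧
      ∀ n, b1 n + b2 n + b3 n = 1 ∧ |b1 n| ≤ 1 ∧ |b2 n| ≤ 1 ∧ |b3 n| ≤ 1 ∧
        p n = b1 n • p i + b2 n • p j + b3 n • p k := by
  classical
  haveI : Module.Finite ℝ E := Module.finite_of_finrank_pos (by omega)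
  let B : Module.Basis (Fin 2) ℝ E := Module.finBasisOfFinrankEq ℝ E h2
  let X : Fin 7 → ℝ := fun n => B.repr (p n) 0
  let Y : Fin 7 → ℝ := fun n => B.repr (p n) 1
  have hrep : ∀ n, p n = X n • B 0 + Y n • B 1 := by
    intro n
    have := B.sum_repr (p n)
    rw [Fin.sum_univ_two] at this
    exact this.symm
  let D : Fin 7 → Fin 7 → Fin 7 → ℝ := fun i j k =>
    (X j - X i) * (Y k - Y i) - (Y j - Y i) * (X k - X i)
  have hDdef : ∀ i j k, D i j k = (X j - X i) * (Y k - Y i) - (Y j - Y i) * (X k - X i) :=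
    fun _ _ _ => rfl
  obtain ⟨⟨i, j, k⟩, hmax⟩ := Finite.exists_max (fun z : Fin 7 × Fin 7 × Fin 7 =>
    |D z.1 z.2.1 z.2.2|)
  have hmax' : ∀ a b c, |D a b c| ≤ |D i j k| := fun a b c => hmax (a, b, c)
  by_cases h0 : D i j k = 0
  · left
    have hz : D 0 1 2 = 0 := by
      have := hmax' 0 1 2
      rw [h0, abs_zero] at this
      exact abs_eq_zero.1 (le_antisymm this (abs_nonneg _))
    rw [hDdef] at hz
    have hne : p 1 ≠ p 0 := fun h => by
      have := hp h
      exact absurd this (by decide)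
    by_cases hX : X 1 - X 0 = 0
    · have hY : Y 1 - Y 0 ≠ 0 := by
        intro hY
        apply hne
        rw [hrep 1, hrep 0]
        have e1 : X 1 = X 0 := by linarith
        have e2 : Y 1 = Y 0 := by linarith
        rw [e1, e2]
      refine ⟨(Y 2 - Y 0) / (Y 1 - Y 0), ?_⟩
      have hX2 : X 2 - X 0 = 0 := by
        rw [hX] at hz
        have : (Y 1 - Y 0) * (X 2 - X 0) = 0 := by linarith
        exact (mul_eq_zero.1 this).resolve_left hY
      have e : p 2 - p 0 = (X 2 - X 0) • B 0 + (Y 2 - Y 0) • B 1 := by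
        rw [hrep 2, hrep 0]; module
      have e' : p 1 - p 0 = (X 1 - X 0) • B 0 + (Y 1 - Y 0) • B 1 := by
        rw [hrep 1, hrep 0]; module
      rw [e, e', hX, hX2, zero_smul, zero_add, zero_add, smul_smul]
      congr 1
      field_simp
    · refine ⟨(X 2 - X 0) / (X 1 - X 0), ?_⟩
      have e : p 2 - p 0 = (X 2 - X 0) • B 0 + (Y 2 - Y 0) • B 1 := by
        rw [hrep 2, hrep 0]; module
      have e' : p 1 - p 0 = (X 1 - X 0) • B 0 + (Y 1 - Y 0) • B 1 := by
        rw [hrep 1, hrep 0]; module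
      rw [e, e', smul_add, smul_smul, smul_smul]
      congr 2
      · field_simp
      · have hX' : X 1 - X 0 ≠ 0 := hX
        rw [div_mul_eq_mul_div, eq_div_iff hX']
        linarith
  · right
    have hpos : 0 < |D i j k| := abs_pos.2 h0
    refine ⟨i, j, k, fun n => D n j k / D i j k, fun n => D i n k / D i j k,
      fun n => D i j n / D i j k, ?_, ?_, ?_, ?_⟩
    · rintro rfl; apply h0; rw [hDdef]; ring
    · rintro rfl; apply h0; rw [hDdef]; ring
    · rintro rfl; apply h0; rw [hDdef]; ring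
    · intro n
      refine ⟨?_, ?_, ?_, ?_, ?_⟩
      · show D n j k / D i j k + D i n k / D i j k + D i j n / D i j k = 1
        rw [← add_div, ← add_div, div_eq_one_iff_eq h0]
        simp only [hDdef]; ring
      · show |D n j k / D i j k| ≤ 1
        rw [abs_div, div_le_one hpos]; exact hmax' _ _ _
      · show |D i n k / D i j k| ≤ 1
        rw [abs_div, div_le_one hpos]; exact hmax' _ _ _
      · show |D i j n / D i j k| ≤ 1
        rw [abs_div, div_le_one hpos]; exact hmax' _ _ _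
      · show p n = (D n j k / D i j k) • p i + (D i n k / D i j k) • p j
          + (D i j n / D i j k) • p k
        have eX : (D n j k / D i j k) * X i + (D i n k / D i j k) * X j
            + (D i j n / D i j k) * X k = X n := by
          rw [div_mul_eq_mul_div, div_mul_eq_mul_div, div_mul_eq_mul_div, ← add_div, ← add_div,
            div_eq_iff h0]
          simp only [hDdef]; ring
        have eY : (D n j k / D i j k) * Y i + (D i n k / D i j k) * Y j
            + (D i j n / D i j k) * Y k = Y n := by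
          rw [div_mul_eq_mul_div, div_mul_eq_mul_div, div_mul_eq_mul_div, ← add_div, ← add_div,
            div_eq_iff h0]
          simp only [hDdef]; ring
        rw [hrep n, hrep i, hrep j, hrep k]
        nth_rewrite 1 [← eX]
        nth_rewrite 1 [← eY]
        module

/-- The main theorem, in terms of norms. -/
theorem seven (h2 : Module.finrank ℝ E = 2) (p : Fin 7 → E) (hp : Function.Injective p) :
    ∃ i j k l : Fin 7, k ≠ l ∧ 2 * dist (p k) (p l) ≤ dist (p i) (p j) := by
  classical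
  by_contra hcon
  push Not at hcon
  -- maximal distance
  obtain ⟨⟨i0, j0⟩, hmax⟩ := Finite.exists_max (fun z : Fin 7 × Fin 7 => dist (p z.1) (p z.2))
  obtain ⟨M, hMdef⟩ : ∃ M, M = dist (p i0) (p j0) := ⟨_, rfl⟩
  have up : ∀ a b, ‖p a - p b‖ ≤ M := by
    intro a b
    rw [← dist_eq_norm, hMdef]
    exact hmax (a, b)
  have low : ∀ a b, a ≠ b → M < 2 * ‖p a - p b‖ := by
    intro a b hab
    rw [← dist_eq_norm, hMdef]
    exact hcon i0 j0 a b hab
  have hM : 0 < M := by
    have h1 := low 0 1 (by decide)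
    have h2 := up 0 1
    have h3 : 0 < ‖p 0 - p 1‖ := by
      rw [norm_pos_iff, sub_ne_zero]
      intro h
      exact absurd (hp h) (by decide)
    linarith
  rcases coords h2 p hp with ⟨t, ht⟩ | ⟨i, j, k, b1, b2, b3, hij, hik, hjk, hb⟩
  · exact collinear3 (p 0) (p 1) (p 2) M t ht (up _ _) (up _ _) (up _ _)
      (low _ _ (by decide)) (low _ _ (by decide)) (low _ _ (by decide))
  · -- the regions
    let S : Finset (Fin 7) := {i, j, k}ᶜ
    have hScard : S.card = 4 := by
      have h3 : ({i, j, k} : Finset (Fin 7)).card = 3 := Finset.card_eq_three.2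
        ⟨i, j, k, hij, hik, hjk, rfl⟩
      rw [Finset.card_compl, h3, Fintype.card_fin]
    have hS : ∀ n, n ∈ S → n ≠ i ∧ n ≠ j ∧ n ≠ k := by
      intro n hn
      simp only [S, Finset.mem_compl, Finset.mem_insert, Finset.mem_singleton, not_or] at hn
      exact hn
    let f : Fin 7 → Fin 4 := fun n =>
      if b1 n < 0 then 1 else if b2 n < 0 then 2 else if b3 n < 0 then 3 else 0
    have f0 : ∀ n, f n = 0 → 0 ≤ b1 n ∧ 0 ≤ b2 n ∧ 0 ≤ b3 n := by
      intro n hn
      simp only [f] at hn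
      split_ifs at hn with c1 c2 c3
      · exact absurd hn (by decide)
      · exact absurd hn (by decide)
      · exact absurd hn (by decide)
      · exact ⟨not_lt.1 c1, not_lt.1 c2, not_lt.1 c3⟩
    have f1 : ∀ n, f n = 1 → b1 n < 0 := by
      intro n hn
      simp only [f] at hn
      split_ifs at hn with c1 c2 c3
      · exact c1
      · exact absurd hn (by decide)
      · exact absurd hn (by decide)
      · exact absurd hn (by decide)
    have f2 : ∀ n, f n = 2 → b2 n < 0 := by
      intro n hn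
      simp only [f] at hn
      split_ifs at hn with c1 c2 c3
      · exact absurd hn (by decide)
      · exact c2
      · exact absurd hn (by decide)
      · exact absurd hn (by decide)
    have f3 : ∀ n, f n = 3 → b3 n < 0 := by
      intro n hn
      simp only [f] at hn
      split_ifs at hn with c1 c2 c3
      · exact absurd hn (by decide)
      · exact absurd hn (by decide)
      · exact c3
      · exact absurd hn (by decide)
    -- injectivity
    have outerInj : ∀ (u v w n m : Fin 7) (β1 β2 β3 : Fin 7 → ℝ),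
        n ≠ m → n ≠ v → n ≠ w → m ≠ v → m ≠ w →
        (∀ n, β1 n + β2 n + β3 n = 1 ∧ |β1 n| ≤ 1 ∧ |β2 n| ≤ 1 ∧ |β3 n| ≤ 1 ∧
          p n = β1 n • p u + β2 n • p v + β3 n • p w) → β1 n < 0 → β1 m < 0 → False := by
      intro u v w n m β1 β2 β3 hnm hnv hnw hmv hmw hβ hn hm
      obtain ⟨n1, n2, n3, n4, n5⟩ := hβ n
      obtain ⟨m1, m2, m3, m4, m5⟩ := hβ m
      obtain ⟨k1, k1'⟩ := abs_le.1 n2
      obtain ⟨k2, k2'⟩ := abs_le.1 n3
      obtain ⟨k3, k3'⟩ := abs_le.1 n4
      obtain ⟨l1, l1'⟩ := abs_le.1 m2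
      obtain ⟨l2, l2'⟩ := abs_le.1 m3
      obtain ⟨l3, l3'⟩ := abs_le.1 m4
      exact twoOuter (p u) (p v) (p w) (p n) (p m) M hM (-β1 n) (β2 n) (β3 n) (-β1 m) (β2 m) (β3 m)
        (by linarith) (by linarith) (by linarith) (by linarith) k2' k3' l2' l3'
        (by linarith) (by linarith) (by rw [neg_neg]; exact n5) (by rw [neg_neg]; exact m5)
        (up _ _) (up _ _) (up _ _) (up _ _) (up _ _) (up _ _) (up _ _) (up _ _) (up _ _)
        (low _ _ hnv) (low _ _ hnw) (low _ _ hmv) (low _ _ hmw) (low _ _ hnm)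
    have hinj : Set.InjOn f (S : Set (Fin 7)) := by
      intro n hn m hm hnm
      by_contra hne
      obtain ⟨ni, nj, nk⟩ := hS n hn
      obtain ⟨mi, mj, mk⟩ := hS m hm
      have hcases : f n = 0 ∨ f n = 1 ∨ f n = 2 ∨ f n = 3 := by
        have : ∀ x : Fin 4, x = 0 ∨ x = 1 ∨ x = 2 ∨ x = 3 := by decide
        exact this _
      rcases hcases with h | h | h | h
      · obtain ⟨p1, p2, p3⟩ := f0 n h
        obtain ⟨q1, q2, q3⟩ := f0 m (by rw [← hnm]; exact h)
        obtain ⟨n1, -, -, -, n5⟩ := hb n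
        obtain ⟨m1, -, -, -, m5⟩ := hb m
        exact twoInner (p i) (p j) (p k) (p n) (p m) M hM (b1 n) (b2 n) (b3 n) (b1 m) (b2 m) (b3 m)
          p1 p2 p3 q1 q2 q3 n1 m1 n5 m5 (up _ _) (up _ _) (up _ _)
          (low _ _ ni.symm) (low _ _ nj.symm) (low _ _ nk.symm)
          (low _ _ mi.symm) (low _ _ mj.symm) (low _ _ mk.symm) (low _ _ hne)
      · exact outerInj i j k n m b1 b2 b3 hne nj nk mj mk hb (f1 n h)
          (f1 m (by rw [← hnm]; exact h))
      · refine outerInj j k i n m b2 b3 b1 hne nk ni mk mi ?_ (f2 n h)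
          (f2 m (by rw [← hnm]; exact h))
        intro n
        obtain ⟨n1, n2, n3, n4, n5⟩ := hb n
        refine ⟨by linarith, n3, n4, n2, ?_⟩
        rw [n5]; module
      · refine outerInj k i j n m b3 b1 b2 hne ni nj mi mj ?_ (f3 n h)
          (f3 m (by rw [← hnm]; exact h))
        intro n
        obtain ⟨n1, n2, n3, n4, n5⟩ := hb n
        refine ⟨by linarith, n4, n2, n3, ?_⟩
        rw [n5]; module
    have himg : S.image f = Finset.univ := by
      apply Finset.eq_univ_of_card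
      rw [Finset.card_image_of_injOn hinj, hScard, Fintype.card_fin]
    have hsurj : ∀ r : Fin 4, ∃ n ∈ S, f n = r := by
      intro r
      have : r ∈ S.image f := by rw [himg]; exact Finset.mem_univ _
      exact Finset.mem_image.1 this
    obtain ⟨q, hqS, hq⟩ := hsurj 0
    obtain ⟨c1, hc1S, hc1⟩ := hsurj 1
    obtain ⟨c2, hc2S, hc2⟩ := hsurj 2
    obtain ⟨c3, hc3S, hc3⟩ := hsurj 3
    obtain ⟨qi, qj, qk⟩ := hS q hqS
    obtain ⟨c1i, c1j, c1k⟩ := hS c1 hc1S
    obtain ⟨c2i, c2j, c2k⟩ := hS c2 hc2S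
    obtain ⟨c3i, c3j, c3k⟩ := hS c3 hc3S
    obtain ⟨q1, q2, q3⟩ := f0 q hq
    have r1 := f1 c1 hc1
    have r2 := f2 c2 hc2
    have r3 := f3 c3 hc3
    have qc1 : q ≠ c1 := by rintro rfl; rw [hq] at hc1; exact absurd hc1 (by decide)
    have qc2 : q ≠ c2 := by rintro rfl; rw [hq] at hc2; exact absurd hc2 (by decide)
    have qc3 : q ≠ c3 := by rintro rfl; rw [hq] at hc3; exact absurd hc3 (by decide)
    obtain ⟨sq, -, -, -, eq⟩ := hb q
    obtain ⟨s1, a11, a12, a13, e1⟩ := hb c1
    obtain ⟨s2, a21, a22, a23, e2⟩ := hb c2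
    obtain ⟨s3, a31, a32, a33, e3⟩ := hb c3
    exact hexc (p i) (p j) (p k) (p c1) (p c2) (p c3) (p q) M hM
      (-b1 c1) (b2 c1) (b3 c1) (-b2 c2) (b3 c2) (b1 c2) (-b3 c3) (b1 c3) (b2 c3)
      (b1 q) (b2 q) (b3 q) (by linarith) (by linarith) (by linarith)
      (abs_le.1 a12).2 (abs_le.1 a13).2 (abs_le.1 a23).2 (abs_le.1 a21).2
      (abs_le.1 a31).2 (abs_le.1 a32).2
      (by linarith) (by linarith) (by linarith)
      (by rw [neg_neg]; exact e1) (by rw [neg_neg, e2]; module) (by rw [neg_neg, e3]; module)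
      q1 q2 q3 sq eq (up _ _) (up _ _) (up _ _) (up _ _) (up _ _) (up _ _)
      (low _ _ c1j) (low _ _ c1k) (low _ _ c2i) (low _ _ c2k) (low _ _ c3i) (low _ _ c3j)
      (low _ _ qi.symm) (low _ _ qj.symm) (low _ _ qk.symm)
      (low _ _ qc1) (low _ _ qc2) (low _ _ qc3)

end Pool.Agent.W247.Seven
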